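import Pool.Agent.H94.HC.Tree

/-!
# Partial isomorphisms of the full structures
-/

set_option autoImplicit false
set_option linter.unusedSectionVars false

namespace Pool.Agent.H94.HC

open Cardinal

/-- triples of partial maps -/
@[ext] structure Tri (V V' Q Q' : Type) where
  /-- colours -/
  v : Set (V × V')
  /-- functions -/
  y : Set (Y V Q × Y V' Q')
  /-- classes -/
  q : Set (Q × Q')

/-- partial injective map -/
def PInj {A B : Type} (p : Set (A × B)) : Prop := ∀ a ∈ p, ∀ b ∈ p, a.1 = b.1 ↔ a.2 = b.2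

/-- extension -/
def Tri.Le {V V' Q Q' : Type} (p p' : Tri V V' Q Q') : Prop := p.v ⊆ p'.v ∧ p.y ⊆ p'.y ∧ p.q ⊆ p'.q

lemma Tri.Le.refl {V V' Q Q' : Type} (p : Tri V V' Q Q') : p.Le p := ⟨le_rfl, le_rfl, le_rfl⟩

lemma Tri.Le.trans {V V' Q Q' : Type} {p p' p'' : Tri V V' Q Q'} (h : p.Le p') (h' : p'.Le p'') :
    p.Le p'' := ⟨h.1.trans h'.1, h.2.1.trans h'.2.1, h.2.2.trans h'.2.2⟩

section

variable {V V' Q Q' : Type} [VStr V] [VStr V'] [Infinite V] [Infinite V']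

/-- finite partial isomorphisms between closed sets -/
structure PI (hQ : #Q ≤ #V) (hQ' : #Q' ≤ #V') (Γ : Set (Q × Q')) (p : Tri V V' Q Q') : Prop where
  finV : p.v.Finite
  finY : p.y.Finite
  finQ : p.q.Finite
  pv : PV p.v
  injY : PInj p.y
  injQ : PInj p.q
  gam : p.q ⊆ Γ
  col : ∀ a ∈ p.y, ∀ b ∈ p.y, (ec hQ a.1 b.1, ec hQ' a.2 b.2) ∈ p.v
  cl : ∀ a ∈ p.y, (cls a.1, cls a.2) ∈ p.q
  kid1 : ∀ a ∈ p.y, ∀ x ∈ kids a.1, ∃ b ∈ p.y, b.1 = x
  kid2 : ∀ a ∈ p.y, ∀ x ∈ kids a.2, ∃ b ∈ p.y, b.2 = x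

/-- extension property for the classes -/
def ExtQ (Γ : Set (Q × Q')) : Prop := ∀ p : Set (Q × Q'), p.Finite → PInj p → p ⊆ Γ → ∀ q : Q,
  ∃ q' : Q', (q, q') ∈ Γ ∧ PInj (insert (q, q') p)

variable {hQ : #Q ≤ #V} {hQ' : #Q' ≤ #V'} {Γ : Set (Q × Q')}

lemma PI.extV [Good V] [Good V'] {p : Tri V V' Q Q'} (h : PI hQ hQ' Γ p) (u : V) :
    ∃ p', PI hQ hQ' Γ p' ∧ p.Le p' ∧ ∃ a ∈ p'.v, a.1 = u := by
  obtain ⟨u', hu'⟩ := h.pv.ext h.finV u
  refine ⟨⟨insert (u, u') p.v, p.y, p.q⟩, ?_, ⟨Set.subset_insert _ _, le_rfl, le_rfl⟩,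
    (u, u'), Set.mem_insert _ _, rfl⟩
  exact { h with
    finV := h.finV.insert _
    pv := hu'
    col := fun a ha b hb => Set.mem_insert_of_mem _ (h.col a ha b hb) }

lemma PI.extVs [Good V] [Good V'] {p : Tri V V' Q Q'} (h : PI hQ hQ' Γ p) {S : Set V}
    (hS : S.Finite) : ∃ p', PI hQ hQ' Γ p' ∧ p.Le p' ∧ p'.y = p.y ∧ ∀ u ∈ S, ∃ a ∈ p'.v, a.1 = u := by
  induction S, hS using Set.Finite.induction_on with
  | empty => exact ⟨p, h, Tri.Le.refl p, rfl, fun u hu => absurd hu (Set.notMem_empty u)⟩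
  | @insert u S _ _ ih =>
    obtain ⟨p', h', hle, hy, hS'⟩ := ih
    obtain ⟨u', hu'⟩ := h'.pv.ext h'.finV u
    refine ⟨⟨insert (u, u') p'.v, p'.y, p'.q⟩, ?_,
      hle.trans ⟨Set.subset_insert _ _, le_rfl, le_rfl⟩, hy, ?_⟩
    · exact { h' with
        finV := h'.finV.insert _
        pv := hu'
        col := fun a ha b hb => Set.mem_insert_of_mem _ (h'.col a ha b hb) }
    · intro w hw
      rcases Set.mem_insert_iff.mp hw with rfl | hw
      · exact ⟨(w, u'), Set.mem_insert _ _, rfl⟩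
      · obtain ⟨a, ha, rfl⟩ := hS' w hw
        exact ⟨a, Set.mem_insert_of_mem _ ha, rfl⟩

lemma PI.extQ (hΓ : ExtQ Γ) {p : Tri V V' Q Q'} (h : PI hQ hQ' Γ p) (q : Q) :
    ∃ p', PI hQ hQ' Γ p' ∧ p.Le p' ∧ p'.y = p.y ∧ p'.v = p.v ∧ ∃ a ∈ p'.q, a.1 = q := by
  obtain ⟨q', hq1, hq2⟩ := hΓ p.q h.finQ h.injQ h.gam q
  refine ⟨⟨p.v, p.y, insert (q, q') p.q⟩, ?_, ⟨le_rfl, le_rfl, Set.subset_insert _ _⟩, rfl, rfl,
    (q, q'), Set.mem_insert _ _, rfl⟩
  exact { h with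
    finQ := h.finQ.insert _
    injQ := hq2
    gam := Set.insert_subset hq1 h.gam
    cl := fun a ha => Set.mem_insert_of_mem _ (h.cl a ha) }

lemma PI.extY1 {p : Tri V V' Q Q'} (h : PI hQ hQ' Γ p) {c : Y V Q} (hc : ∀ a ∈ p.y, a.1 ≠ c)
    (hk : ∀ x ∈ kids c, ∃ a ∈ p.y, a.1 = x) (h1 : ∀ a ∈ p.y, ∃ b ∈ p.v, b.1 = ec hQ a.1 c)
    (h2 : ∀ a ∈ p.y, ∃ b ∈ p.v, b.1 = ec hQ c a.1) (h3 : ∃ b ∈ p.v, b.1 = ec hQ c c)
    (h4 : ∃ b ∈ p.q, b.1 = cls c) :
    ∃ p', PI hQ hQ' Γ p' ∧ p.Le p' ∧ ∃ a ∈ p'.y, a.1 = c := by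
  classical
  obtain ⟨bv, hbv, hbv'⟩ := h3
  obtain ⟨bq, hbq, hbq'⟩ := h4
  -- the prescriptions
  have hg : ∀ x' : Y V' Q', ∃ v' : V', ∀ a ∈ p.y, a.2 = x' → (ec hQ a.1 c, v') ∈ p.v := by
    intro x'
    by_cases hx : ∃ a ∈ p.y, a.2 = x'
    · obtain ⟨a, ha, rfl⟩ := hx
      obtain ⟨b, hb, hb'⟩ := h1 a ha
      refine ⟨b.2, fun a' ha' heq => ?_⟩
      rw [(h.injY a' ha' a ha).mpr heq, ← hb']
      exact hb
    · exact ⟨bv.2, fun a ha heq => absurd ⟨a, ha, heq⟩ hx⟩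
  have hh : ∀ x' : Y V' Q', ∃ v' : V', ∀ a ∈ p.y, a.2 = x' → (ec hQ c a.1, v') ∈ p.v := by
    intro x'
    by_cases hx : ∃ a ∈ p.y, a.2 = x'
    · obtain ⟨a, ha, rfl⟩ := hx
      obtain ⟨b, hb, hb'⟩ := h2 a ha
      refine ⟨b.2, fun a' ha' heq => ?_⟩
      rw [(h.injY a' ha' a ha).mpr heq, ← hb']
      exact hb
    · exact ⟨bv.2, fun a ha heq => absurd ⟨a, ha, heq⟩ hx⟩
  choose g hg using hg
  choose f hf using hh
  have hinj : Set.InjOn f (Prod.snd '' p.y) := by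
    rintro x' ⟨a, ha, rfl⟩ y' ⟨b, hb, rfl⟩ hxy
    have e1 := hf a.2 a ha rfl
    have e2 := hf b.2 b hb rfl
    have e3 : ec hQ c a.1 = ec hQ c b.1 := ((h.pv _ e1 _ e2).1).mpr hxy
    by_contra hne
    have hne' : a.1 ≠ b.1 := fun h' => hne ((h.injY a ha b hb).mp h')
    refine ec_ne hQ hne' (hc a ha).symm (hc b hb).symm ?_ ?_ e3
    · intro hck
      obtain ⟨d, hd, hd'⟩ := h.kid1 a ha c hck
      exact hc d hd hd'
    · intro hck
      obtain ⟨d, hd, hd'⟩ := h.kid1 b hb c hck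
      exact hc d hd hd'
  obtain ⟨c', hk', hc', hcl, hcc, hcol⟩ := exists_mk hQ' (Prod.snd '' p.y) (h.finY.image _) g f hinj
    bv.2 bq.2
  have hne' : ∀ a ∈ p.y, a.2 ≠ c' := fun a ha heq => hc' ⟨a, ha, heq⟩
  refine ⟨⟨p.v, insert (c, c') p.y, p.q⟩, ?_, ⟨le_rfl, Set.subset_insert _ _, le_rfl⟩,
    (c, c'), Set.mem_insert _ _, rfl⟩
  exact { h with
    finY := h.finY.insert _
    injY := by
      intro a ha b hb
      rcases Set.mem_insert_iff.mp ha with rfl | ha <;> rcases Set.mem_insert_iff.mp hb with rfl | hb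
      · simp
      · exact iff_of_false (hc b hb).symm (hne' b hb).symm
      · exact iff_of_false (hc a ha) (hne' a ha)
      · exact h.injY a ha b hb
    col := by
      intro a ha b hb
      rcases Set.mem_insert_iff.mp ha with rfl | ha <;> rcases Set.mem_insert_iff.mp hb with rfl | hb
      · show (ec hQ c c, ec hQ' c' c') ∈ p.v
        rw [hcc, ← hbv']
        exact hbv
      · show (ec hQ c b.1, ec hQ' c' b.2) ∈ p.v
        rw [(hcol b.2 ⟨b, hb, rfl⟩).2]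
        exact hf b.2 b hb rfl
      · show (ec hQ a.1 c, ec hQ' a.2 c') ∈ p.v
        rw [(hcol a.2 ⟨a, ha, rfl⟩).1]
        exact hg a.2 a ha rfl
      · exact h.col a ha b hb
    cl := by
      intro a ha
      rcases Set.mem_insert_iff.mp ha with rfl | ha
      · show (cls c, cls c') ∈ p.q
        rw [hcl, ← hbq']
        exact hbq
      · exact h.cl a ha
    kid1 := by
      intro a ha x hx
      rcases Set.mem_insert_iff.mp ha with rfl | ha
      · obtain ⟨b, hb, hb'⟩ := hk x hx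
        exact ⟨b, Set.mem_insert_of_mem _ hb, hb'⟩
      · obtain ⟨b, hb, hb'⟩ := h.kid1 a ha x hx
        exact ⟨b, Set.mem_insert_of_mem _ hb, hb'⟩
    kid2 := by
      intro a ha x hx
      rcases Set.mem_insert_iff.mp ha with rfl | ha
      · rw [show (kids (c, c').2) = kids c' from rfl, hk'] at hx
        obtain ⟨b, hb, hb'⟩ := hx
        exact ⟨b, Set.mem_insert_of_mem _ hb, hb'⟩
      · obtain ⟨b, hb, hb'⟩ := h.kid2 a ha x hx
        exact ⟨b, Set.mem_insert_of_mem _ hb, hb'⟩ }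

theorem PI.extY [Good V] [Good V'] (hΓ : ExtQ Γ) (c : Y V Q) : ∀ {p : Tri V V' Q Q'},
    PI hQ hQ' Γ p → ∃ p', PI hQ hQ' Γ p' ∧ p.Le p' ∧ ∃ a ∈ p'.y, a.1 = c := by
  induction c using kid_induction with
  | h c ih =>
    intro p h
    by_cases hcp : ∃ a ∈ p.y, a.1 = c
    · exact ⟨p, h, Tri.Le.refl p, hcp⟩
    -- the children
    have hkids : ∀ S : Set (Y V Q), S.Finite → S ⊆ kids c → ∃ p', PI hQ hQ' Γ p' ∧ p.Le p' ∧
        ∀ x ∈ S, ∃ a ∈ p'.y, a.1 = x := by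
      intro S hS
      induction S, hS using Set.Finite.induction_on with
      | empty => exact fun _ => ⟨p, h, Tri.Le.refl p, fun u hu => absurd hu (Set.notMem_empty u)⟩
      | @insert x S _ _ ihS =>
        intro hsub
        obtain ⟨p', h', hle, hS'⟩ := ihS ((Set.subset_insert _ _).trans hsub)
        obtain ⟨p'', h'', hle', a, ha, hax⟩ := ih x (hsub (Set.mem_insert _ _)) h'
        refine ⟨p'', h'', hle.trans hle', ?_⟩
        intro w hw
        rcases Set.mem_insert_iff.mp hw with rfl | hw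
        · exact ⟨a, ha, hax⟩
        · obtain ⟨b, hb, hb'⟩ := hS' w hw
          exact ⟨b, hle'.2.1 hb, hb'⟩
    obtain ⟨p1, h1, hle1, hk1⟩ := hkids (kids c) (kids_finite c) le_rfl
    by_cases hcp1 : ∃ a ∈ p1.y, a.1 = c
    · exact ⟨p1, h1, hle1, hcp1⟩
    push Not at hcp1
    -- the colours
    have hSfin : (((fun a : Y V Q × Y V' Q' => ec hQ a.1 c) '' p1.y) ∪
        ((fun a : Y V Q × Y V' Q' => ec hQ c a.1) '' p1.y) ∪ {ec hQ c c}).Finite :=
      ((h1.finY.image _).union (h1.finY.image _)).union (Set.finite_singleton _)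
    obtain ⟨p2, h2, hle2, hy2, hS2⟩ := h1.extVs hSfin
    obtain ⟨p3, h3, hle3, hy3, hv3, hq3⟩ := h2.extQ hΓ (cls c)
    have hy : p3.y = p1.y := hy3.trans hy2
    obtain ⟨p4, h4, hle4, h5⟩ := h3.extY1 (c := c)
      (by rw [hy]; exact hcp1) (by rw [hy]; exact hk1)
      (by
        rw [hy, hv3]
        intro a ha
        exact hS2 _ (Or.inl (Or.inl ⟨a, ha, rfl⟩)))
      (by
        rw [hy, hv3]
        intro a ha
        exact hS2 _ (Or.inl (Or.inr ⟨a, ha, rfl⟩)))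
      (by
        rw [hv3]
        exact hS2 _ (Or.inr rfl)) hq3
    exact ⟨p4, h4, (hle1.trans hle2).trans (hle3.trans hle4), h5⟩

/-! ### symmetry -/

/-- the inverse -/
def Tri.swap (p : Tri V V' Q Q') : Tri V' V Q' Q :=
  ⟨Prod.swap ⁻¹' p.v, Prod.swap ⁻¹' p.y, Prod.swap ⁻¹' p.q⟩

lemma finite_swap {A B : Type} {p : Set (A × B)} (h : p.Finite) : (Prod.swap ⁻¹' p).Finite :=
  h.preimage Prod.swap_injective.injOn

lemma PV.swap {p : Set (V × V')} (h : PV p) : PV (Prod.swap ⁻¹' p) := by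
  intro a ha b hb
  obtain ⟨e1, e2, e3, e4⟩ := h a.swap ha b.swap hb
  exact ⟨e1.symm, e2.symm, fun k => (e3 k).symm, e4.symm⟩

lemma PInj.swap {A B : Type} {p : Set (A × B)} (h : PInj p) : PInj (Prod.swap ⁻¹' p) :=
  fun a ha b hb => (h a.swap ha b.swap hb).symm

lemma PI.swap {p : Tri V V' Q Q'} (h : PI hQ hQ' Γ p) :
    PI hQ' hQ (Prod.swap ⁻¹' Γ) p.swap where
  finV := finite_swap h.finV
  finY := finite_swap h.finY
  finQ := finite_swap h.finQ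
  pv := h.pv.swap
  injY := h.injY.swap
  injQ := h.injQ.swap
  gam := Set.preimage_mono h.gam
  col := fun a ha b hb => h.col a.swap ha b.swap hb
  cl := fun a ha => h.cl a.swap ha
  kid1 := by
    intro a ha x hx
    obtain ⟨b, hb, hb'⟩ := h.kid2 a.swap ha x hx
    exact ⟨b.swap, by show b.swap.swap ∈ p.y; rwa [Prod.swap_swap], hb'⟩
  kid2 := by
    intro a ha x hx
    obtain ⟨b, hb, hb'⟩ := h.kid1 a.swap ha x hx
    exact ⟨b.swap, by show b.swap.swap ∈ p.y; rwa [Prod.swap_swap], hb'⟩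

lemma Tri.Le.swap {p p' : Tri V V' Q Q'} (h : p.Le p') : p.swap.Le p'.swap :=
  ⟨Set.preimage_mono h.1, Set.preimage_mono h.2.1, Set.preimage_mono h.2.2⟩

lemma Tri.swap_swap (p : Tri V V' Q Q') : p.swap.swap = p := by
  cases p; rfl

end

end Pool.Agent.H94.HC
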