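import Pool.Agent.H94.HC.Bound

/-!
# The big good colour structure
-/

set_option autoImplicit false
set_option linter.unusedSectionVars false

namespace Pool.Agent.H94.HC

open Cardinal

/-- surjections invariant under finite modifications -/
lemma exists_theta (X T : Type) [Infinite X] [Nonempty T] (hT : #T ≤ #(Set X)) :
    ∃ θ : Set X → T, Function.Surjective θ ∧ ∀ w w' : Set X, (symmDiff w w').Finite → θ w = θ w' := by
  classical
  obtain ⟨e⟩ : Nonempty (X ≃ X × ℕ) := by
    rw [← Cardinal.eq, Cardinal.mk_prod, Cardinal.lift_id, Cardinal.lift_id, Cardinal.mk_nat,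
      Cardinal.mul_aleph0_eq (Cardinal.aleph0_le_mk X)]
  obtain ⟨i⟩ := Cardinal.le_def _ _ |>.mp hT
  let g : Set X → T := Function.invFun i
  have hg : Function.Surjective g := Function.invFun_surjective i.injective
  let ψ : Set X → Set X := fun w => {x | {k : ℕ | e.symm (x, k) ∈ w}.Infinite}
  refine ⟨g ∘ ψ, hg.comp ?_, ?_⟩
  · intro S
    refine ⟨{y | (e y).1 ∈ S}, ?_⟩
    ext x
    show {k : ℕ | (e (e.symm (x, k))).1 ∈ S}.Infinite ↔ x ∈ S
    simp only [Equiv.apply_symm_apply]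
    by_cases hx : x ∈ S
    · simp only [hx, iff_true]
      have : {k : ℕ | True} = Set.univ := by ext; simp
      rw [this]
      exact Set.infinite_univ
    · simp [hx]
  · have key : ∀ w w' : Set X, (symmDiff w w').Finite → ψ w ⊆ ψ w' := by
      intro w w' hfin x hx hcon
      apply hx
      have h1 : {k : ℕ | e.symm (x, k) ∈ w} ⊆ {k : ℕ | e.symm (x, k) ∈ w'} ∪
          (fun k : ℕ => e.symm (x, k)) ⁻¹' (symmDiff w w') := by
        intro k hk
        by_cases h : e.symm (x, k) ∈ w'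
        · exact Or.inl h
        · exact Or.inr (Or.inl ⟨hk, h⟩)
      refine (Set.Finite.union hcon (hfin.preimage ?_)).subset h1
      intro a _ b _ hab
      exact (Prod.mk.inj (e.symm.injective hab)).2
    intro w w' hfin
    show g (ψ w) = g (ψ w')
    rw [Set.Subset.antisymm (key w w' hfin) (key w' w (by rwa [symmDiff_comm]))]

/-- prescription of finitely many membership relations inside a fibre -/
lemma exists_fibre {X T : Type} [Infinite X] {θ : Set X → T} (hs : Function.Surjective θ)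
    (hi : ∀ w w' : Set X, (symmDiff w w').Finite → θ w = θ w') (L : Finset X) (a : Set X) (t : T)
    (Z : Finset (Set X)) : ∃ u : Set X, (∀ x ∈ L, x ∈ u ↔ x ∈ a) ∧ θ u = t ∧ u ∉ Z := by
  classical
  obtain ⟨u0, hu0⟩ := hs t
  let u1 : Set X := (u0 \ L) ∪ (a ∩ L)
  have hinf : ((L : Set X)ᶜ).Infinite := L.finite_toSet.infinite_compl
  let f : X → Set X := fun y => symmDiff u1 {y}
  have hf : Function.Injective f := by
    intro y z hyz
    have h1 : ({y} : Set X) = {z} := symmDiff_right_injective u1 hyz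
    exact Set.singleton_injective h1
  have hinf2 : (f '' (L : Set X)ᶜ).Infinite := hinf.image hf.injOn
  obtain ⟨u, ⟨y, hy, rfl⟩, hZ⟩ := hinf2.exists_notMem_finset Z
  have hyL : y ∉ L := hy
  refine ⟨f y, ?_, ?_, hZ⟩
  · intro x hx
    have hxy : x ≠ y := by
      rintro rfl
      exact hyL hx
    show x ∈ symmDiff u1 {y} ↔ x ∈ a
    rw [Set.mem_symmDiff]
    simp only [Set.mem_singleton_iff, hxy, not_false_eq_true, and_true, false_and, or_false]
    show x ∈ (u0 \ L) ∪ (a ∩ L) ↔ x ∈ a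
    simp [hx]
  · rw [← hu0]
    apply hi
    have hfin : ((L : Set X) ∪ {y}).Finite := L.finite_toSet.union (Set.finite_singleton y)
    refine hfin.subset ?_
    intro x hx
    by_contra hcon
    simp only [Set.mem_union, Set.mem_singleton_iff, not_or] at hcon
    have h1 : x ∉ L := hcon.1
    have h2 : x ∈ f y ↔ x ∈ u0 := by
      show x ∈ symmDiff u1 {y} ↔ x ∈ u0
      rw [Set.mem_symmDiff]
      simp only [Set.mem_singleton_iff, hcon.2, not_false_eq_true, and_true, false_and, or_false]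
      show x ∈ (u0 \ L) ∪ (a ∩ L) ↔ x ∈ u0
      simp [h1]
    rcases hx with hx | hx
    · exact hx.2 (h2.mp hx.1)
    · exact hx.2 (h2.mpr hx.1)

section

variable {X : Type} (φ : X → Finset X × Finset (Finset X)) (s : Set X → Finset X)

open Classical in
/-- the trace of a set on a finite set -/
noncomputable def tr (w : Set X) (F : Finset X) : Finset X := F.filter fun x => x ∈ w

/-- the relation between elements and sets -/
def RG (x : X) (w : Set X) : Prop := Xor (tr w (φ x).1 ∈ (φ x).2) (x ∈ s w)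

/-- patterns from above -/
lemma pattern_up (W P : Finset (Set X)) : ∃ d : Finset X × Finset (Finset X), ∀ x, φ x = d →
    (∀ w ∈ W, x ∉ s w) → ∀ w ∈ W, (RG φ s x w ↔ w ∈ P) := by
  classical
  have hsep : ∀ a : Set X × Set X, ∃ F : Finset X, a.1 ≠ a.2 → tr a.1 F ≠ tr a.2 F := by
    rintro ⟨w, w'⟩
    by_cases h : w = w'
    · exact ⟨∅, fun h' => absurd h h'⟩
    · obtain ⟨x, hx⟩ : ∃ x, ¬ (x ∈ w ↔ x ∈ w') := by
        by_contra hcon
        push Not at hcon
        exact h (Set.ext hcon)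
      refine ⟨{x}, fun _ heq => hx ?_⟩
      have h1 := Finset.ext_iff.mp heq x
      simpa [tr] using h1
  choose f hf using hsep
  let F : Finset X := (W ×ˢ W).biUnion f
  have hF : ∀ w ∈ W, ∀ w' ∈ W, tr w F = tr w' F → w = w' := by
    intro w hw w' hw' heq
    by_contra hne
    apply hf (w, w') hne
    have hsub : f (w, w') ⊆ F := Finset.subset_biUnion_of_mem f
      (Finset.mem_product.mpr ⟨hw, hw'⟩)
    ext x
    simp only [tr, Finset.mem_filter]
    constructor
    · rintro ⟨h1, h2⟩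
      have h3 : x ∈ tr w' F := by
        rw [← heq]; simp only [tr, Finset.mem_filter]; exact ⟨hsub h1, h2⟩
      simp only [tr, Finset.mem_filter] at h3
      exact ⟨h1, h3.2⟩
    · rintro ⟨h1, h2⟩
      have h3 : x ∈ tr w F := by
        rw [heq]; simp only [tr, Finset.mem_filter]; exact ⟨hsub h1, h2⟩
      simp only [tr, Finset.mem_filter] at h3
      exact ⟨h1, h3.2⟩
  refine ⟨(F, (W.filter fun w => w ∈ P).image fun w => tr w F), ?_⟩
  intro x hx hxs w hw
  unfold RG
  rw [hx]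
  have h1 : tr w F ∈ (W.filter fun w => w ∈ P).image (fun w => tr w F) ↔ w ∈ P := by
    rw [Finset.mem_image]
    constructor
    · rintro ⟨w', hw', heq⟩
      rw [Finset.mem_filter] at hw'
      rw [← hF w' hw'.1 w hw heq]
      exact hw'.2
    · intro hP
      exact ⟨w, Finset.mem_filter.mpr ⟨hw, hP⟩, rfl⟩
  show Xor (tr w F ∈ (W.filter fun w => w ∈ P).image (fun w => tr w F)) (x ∈ s w) ↔ w ∈ P
  rw [h1]
  simp only [Xor, hxs w hw]
  tauto

/-- patterns from below -/
lemma pattern_down (K P : Finset X) : ∃ L S : Finset X, ∀ w : Set X, (∀ x ∈ L, x ∉ w) → s w = S →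
    ∀ x ∈ K, (RG φ s x w ↔ x ∈ P) := by
  classical
  refine ⟨K.biUnion fun x => (φ x).1, K.filter fun x => Xor (∅ ∈ (φ x).2) (x ∈ P), ?_⟩
  intro w hw hS x hx
  unfold RG
  have h1 : tr w (φ x).1 = ∅ := by
    simp only [tr, Finset.filter_eq_empty_iff]
    intro y hy
    exact hw y (Finset.mem_biUnion.mpr ⟨x, hx, hy⟩)
  have h2 : x ∈ s w ↔ Xor (∅ ∈ (φ x).2) (x ∈ P) := by
    rw [hS, Finset.mem_filter]
    simp [hx]
  rw [h1, h2]
  by_cases c1 : (∅ : Finset X) ∈ (φ x).2 <;> by_cases c2 : x ∈ P <;> simp [Xor, c1, c2]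

end

/-! ### the structure -/

instance (n : ℕ) : Infinite (BT n) := by
  cases n with
  | zero => exact inferInstanceAs (Infinite ℕ)
  | succ n =>
    have := aleph0_le_VT n
    exact Cardinal.infinite_iff.mpr this

/-- data of the elements of rank `n` -/
abbrev TT (n : ℕ) : Type := Finset (BT n) × (Finset (VT n) × Finset (Finset (VT n)))

lemma mk_TT_le (n : ℕ) : #(TT n) ≤ #(Set (BT n)) := by
  have hinf : Infinite (VT n) := Cardinal.infinite_iff.mpr (aleph0_le_VT n)
  have h1 : #(Finset (BT n)) ≤ #(VT n) := by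
    rw [Cardinal.mk_finset_of_infinite, Cardinal.mk_set]
    exact (Cardinal.cantor _).le
  simp only [TT, Cardinal.mk_prod, Cardinal.lift_id, Cardinal.mk_finset_of_infinite]
  rw [Cardinal.mul_eq_self (aleph0_le_VT n)]
  exact Cardinal.mul_le_of_le (aleph0_le_VT n) (by rwa [Cardinal.mk_finset_of_infinite] at h1) le_rfl

/-- data function -/
noncomputable def th (n : ℕ) : Set (BT n) → TT n := (exists_theta (BT n) (TT n) (mk_TT_le n)).choose

lemma th_surj (n : ℕ) : Function.Surjective (th n) :=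
  (exists_theta (BT n) (TT n) (mk_TT_le n)).choose_spec.1

lemma th_inv (n : ℕ) : ∀ w w' : Set (BT n), (symmDiff w w').Finite → th n w = th n w' :=
  (exists_theta (BT n) (TT n) (mk_TT_le n)).choose_spec.2

/-- the relation between rank `n` and rank `n + 1` -/
def Rn (n : ℕ) (x : VT n) (w : VT (n + 1)) : Prop :=
  RG (X := VT n) (fun x => (th n x).2) (fun w => (th (n + 1) w).1) x w

/-- the type of all colours -/
def BigV : Type := Σ n, VT n

/-- element of rank `n` -/
def BigV.mk (n : ℕ) (x : VT n) : BigV := ⟨n, x⟩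

lemma BigV.mk_inj {n : ℕ} {x y : VT n} (h : BigV.mk n x = BigV.mk n y) : x = y :=
  eq_of_heq (Sigma.mk.inj h).2

instance : VStr BigV where
  rank u := u.1
  E k u v := ∃ x y : Set ℕ, u = BigV.mk 0 x ∧ v = BigV.mk 0 y ∧ ∀ j < k, (j ∈ x ↔ j ∈ y)
  R u v := ∃ (n : ℕ) (x : VT n) (w : VT (n + 1)), u = BigV.mk n x ∧ v = BigV.mk (n + 1) w ∧ Rn n x w

lemma rank_mk (n : ℕ) (x : VT n) : rank (BigV.mk n x) = n := rfl

lemma exists_of_rank {u : BigV} {n : ℕ} (h : rank u = n) : ∃ x : VT n, u = BigV.mk n x := by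
  obtain ⟨m, x⟩ := u
  have h' : m = n := h
  subst h'
  exact ⟨x, rfl⟩

lemma R_mk {n : ℕ} {x : VT n} {w : VT (n + 1)} :
    R (BigV.mk n x) (BigV.mk (n + 1) w) ↔ Rn n x w := by
  constructor
  · rintro ⟨m, x', w', h1, h2, h3⟩
    have hm : n = m := congrArg Sigma.fst h1
    subst hm
    rwa [BigV.mk_inj h1, BigV.mk_inj h2]
  · exact fun h => ⟨n, x, w, rfl, rfl, h⟩

lemma E_mk {k : ℕ} {x y : Set ℕ} :
    E k (BigV.mk 0 x) (BigV.mk 0 y) ↔ ∀ j < k, (j ∈ x ↔ j ∈ y) := by
  constructor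
  · rintro ⟨x', y', h1, h2, h3⟩
    have e1 : x = x' := BigV.mk_inj h1
    have e2 : y = y' := BigV.mk_inj h2
    rwa [e1, e2]
  · exact fun h => ⟨x, y, rfl, rfl, h⟩

open Classical in
/-- the elements of rank `n` of a finite set -/
noncomputable def pre (n : ℕ) (F : Finset BigV) : Finset (VT n) :=
  F.preimage (BigV.mk n) (fun _ _ _ _ h => BigV.mk_inj h)

lemma mem_pre {n : ℕ} {F : Finset BigV} {x : VT n} : x ∈ pre n F ↔ BigV.mk n x ∈ F := by
  unfold pre
  rw [Finset.mem_preimage]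

lemma aux_E {x u : Set ℕ} {k : ℕ} (h : ∀ j < k + 1, (j ∈ u ↔ j ∈ symmDiff x {k})) :
    (∀ j < k, (j ∈ x ↔ j ∈ u)) ∧ ¬ ∀ j < k + 1, (j ∈ x ↔ j ∈ u) := by
  constructor
  · intro j hj
    rw [h j (by omega), Set.mem_symmDiff]
    simp only [Set.mem_singleton_iff]
    have : j ≠ k := by omega
    tauto
  · intro hcon
    have h1 := hcon k (by omega)
    rw [h k (by omega), Set.mem_symmDiff] at h1
    simp only [Set.mem_singleton_iff] at h1
    tauto

instance : Good BigV where
  E_rank := by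
    rintro k u v ⟨x, y, rfl, rfl, _⟩
    exact ⟨rfl, rfl⟩
  R_rank := by
    rintro u v ⟨n, x, w, rfl, rfl, _⟩
    rfl
  E_refl := by
    intro k u hu
    obtain ⟨x, rfl⟩ := exists_of_rank hu
    exact ⟨x, x, rfl, rfl, fun _ _ => Iff.rfl⟩
  E_symm := by
    rintro k u v ⟨x, y, rfl, rfl, h⟩
    exact ⟨y, x, rfl, rfl, fun j hj => (h j hj).symm⟩
  E_trans := by
    rintro k u v w ⟨x, y, rfl, rfl, h⟩ ⟨y', z, h1, rfl, h'⟩
    have e : y = y' := BigV.mk_inj h1
    subst e
    exact ⟨x, z, rfl, rfl, fun j hj => (h j hj).trans (h' j hj)⟩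
  E_succ := by
    rintro k u v ⟨x, y, rfl, rfl, h⟩
    exact ⟨x, y, rfl, rfl, fun j hj => h j (by omega)⟩
  E_zero := by
    intro u v hu hv
    obtain ⟨x, rfl⟩ := exists_of_rank hu
    obtain ⟨y, rfl⟩ := exists_of_rank hv
    exact ⟨x, y, rfl, rfl, fun j hj => absurd hj (by omega)⟩
  E_sep := by
    intro u v h
    obtain ⟨x, y, rfl, rfl, _⟩ := h 0
    have : x = y := by
      ext j
      exact E_mk.mp (h (j + 1)) j (by omega)
    rw [this]
  E_bin := by
    rintro k u v w ⟨x, y, rfl, rfl, h⟩ ⟨y', z, h1, rfl, h'⟩ hn hn'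
    have e : y = y' := BigV.mk_inj h1
    subst e
    rw [E_mk] at hn hn' ⊢
    push Not at hn hn'
    obtain ⟨i, hi, hi'⟩ := hn
    obtain ⟨i', hi1, hi1'⟩ := hn'
    have e1 : i = k := by
      by_contra hcon
      have := h i (by omega)
      tauto
    have e2 : i' = k := by
      by_contra hcon
      have := h' i' (by omega)
      tauto
    subst e1
    subst e2
    intro j hj
    rcases Nat.lt_or_ge j i' with hj' | hj'
    · exact (h j hj').trans (h' j hj')
    · have : j = i' := by omega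
      subst this
      tauto
  zero_ne := ⟨BigV.mk 0 ∅, rfl⟩
  ext_R := by
    classical
    intro n F P
    obtain ⟨L, S, hLS⟩ := pattern_down (X := VT n) (fun x => (th n x).2) (fun w => (th (n + 1) w).1)
      (pre n F) (pre n P)
    obtain ⟨d, hd⟩ := pattern_up (X := VT (n + 1)) (fun x => (th (n + 1) x).2)
      (fun w => (th (n + 2) w).1) (pre (n + 2) F) (pre (n + 2) P)
    obtain ⟨u, hu1, hu2, hu3⟩ := exists_fibre (th_surj (n + 1)) (th_inv (n + 1)) L ∅ (S, d)
      (pre (n + 1) F ∪ (pre (n + 2) F).biUnion fun w => (th (n + 2) w).1)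
    rw [Finset.mem_union, not_or] at hu3
    refine ⟨BigV.mk (n + 1) u, fun h => hu3.1 (mem_pre.mpr h), rfl, ?_⟩
    intro v hv
    constructor
    · intro hr
      obtain ⟨x, rfl⟩ := exists_of_rank hr
      rw [R_mk, ← mem_pre (n := n) (F := P)]
      exact hLS u (fun y hy h => (hu1 y hy).mp h) (by rw [hu2]) x (mem_pre.mpr hv)
    · intro hr
      obtain ⟨w, rfl⟩ := exists_of_rank hr
      rw [R_mk, ← mem_pre (n := n + 2) (F := P)]
      refine hd u (by rw [hu2]) ?_ w (mem_pre.mpr hv)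
      intro w' hw' h
      exact hu3.2 (Finset.mem_biUnion.mpr ⟨w', hw', h⟩)
  ext_E := by
    classical
    intro x k F P hx
    obtain ⟨x, rfl⟩ := exists_of_rank hx
    obtain ⟨d, hd⟩ := pattern_up (X := VT 0) (fun x => (th 0 x).2)
      (fun w => (th 1 w).1) (pre 1 F) (pre 1 P)
    obtain ⟨u, hu1, hu2, hu3⟩ := exists_fibre (th_surj 0) (th_inv 0) (Finset.range (k + 1))
      (symmDiff x {k}) (∅, d) ((pre 1 F).biUnion fun w => (th 1 w).1)
    have hu1' : ∀ j < k + 1, (j ∈ (u : Set ℕ) ↔ j ∈ symmDiff (x : Set ℕ) {k}) :=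
      fun j hj => hu1 j (Finset.mem_range.mpr hj)
    refine ⟨BigV.mk 0 u, ?_, ?_, ?_⟩
    · exact E_mk.mpr (aux_E hu1').1
    · exact fun h => (aux_E hu1').2 (E_mk.mp h)
    · intro v hv hr
      obtain ⟨w, rfl⟩ := exists_of_rank hr
      refine (R_mk (n := 0) (x := u) (w := w)).trans ?_
      rw [← mem_pre (n := 1) (F := P)]
      refine hd u (by rw [hu2]) ?_ w (mem_pre.mpr hv)
      intro w' hw' h
      exact hu3 (Finset.mem_biUnion.mpr ⟨w', hw', h⟩)

lemma mk_BigV : #BigV = kap := rfl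

end Pool.Agent.H94.HC
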