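import Pool.Agent.H94.HC.Upper

/-!
# The cardinal and the upper bound
-/

set_option autoImplicit false
set_option linter.unusedSectionVars false

namespace Pool.Agent.H94.HC

open Cardinal FirstOrder FirstOrder.Language

/-- iterated power sets of `ℕ` -/
def BT : ℕ → Type
  | 0 => ℕ
  | n + 1 => Set (BT n)

/-- iterated power sets of `ℕ`, from the first -/
abbrev VT (n : ℕ) : Type := Set (BT n)

/-- the cardinal `ℶ_ω` -/
noncomputable def kap : Cardinal.{0} := #(Σ n, VT n)

lemma mk_VT_succ (n : ℕ) : #(VT (n + 1)) = 2 ^ #(VT n) := Cardinal.mk_set (α := BT (n + 1))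

lemma mk_VT_zero : #(VT 0) = 2 ^ ℵ₀ := by
  rw [show #(VT 0) = #(Set ℕ) from rfl, Cardinal.mk_set, Cardinal.mk_nat]

lemma aleph0_le_VT (n : ℕ) : ℵ₀ ≤ #(VT n) := by
  induction n with
  | zero => rw [mk_VT_zero]; exact (Cardinal.cantor ℵ₀).le
  | succ n ih => rw [mk_VT_succ]; exact ih.trans (Cardinal.cantor _).le

lemma VT_pow (n : ℕ) : #(VT n) ^ ℵ₀ = #(VT n) := by
  cases n with
  | zero => rw [mk_VT_zero, ← Cardinal.power_mul, Cardinal.aleph0_mul_aleph0]
  | succ n => rw [mk_VT_succ, ← Cardinal.power_mul, Cardinal.mul_aleph0_eq (aleph0_le_VT n)]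

lemma two_pow_le_VT (n : ℕ) : 2 ^ ℵ₀ ≤ #(VT n) := by
  cases n with
  | zero => rw [mk_VT_zero]
  | succ n => rw [mk_VT_succ]; exact Cardinal.power_le_power_left two_ne_zero (aleph0_le_VT n)

lemma VT_le_kap (n : ℕ) : #(VT n) ≤ kap := by
  refine Cardinal.mk_le_of_injective (f := fun x => (⟨n, x⟩ : Σ n, VT n)) ?_
  intro x y h
  exact eq_of_heq (Sigma.mk.inj h).2

lemma aleph0_le_kap : ℵ₀ ≤ kap := (aleph0_le_VT 0).trans (VT_le_kap 0)

section

variable {A : Type} [HL.Structure A] (hA : Facts A)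
include hA

/-- the elements of rank `0` -/
lemma Facts.zero_le : #{a : A // AV 0 a} ≤ 2 ^ ℵ₀ := by
  classical
  rcases isEmpty_or_nonempty A with hE | hne
  · rw [Cardinal.mk_eq_zero]
    exact _root_.zero_le
  let rep : ℕ → A → A := fun k a => Classical.epsilon fun b => AE k a b
  have hrep : ∀ k a, AV 0 a → AE k a (rep k a) := fun k a ha =>
    Classical.epsilon_spec (p := fun b => AE k a b) ⟨a, hA.E_refl k a ha⟩
  have hrep2 : ∀ k a b, AE k a b → rep k a = rep k b := by
    intro k a b hab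
    have : (fun c => AE k a c) = fun c => AE k b c := by
      funext c
      exact propext ⟨fun h => hA.E_trans k _ _ _ (hA.E_symm k _ _ hab) h,
        fun h => hA.E_trans k _ _ _ hab h⟩
    show Classical.epsilon _ = Classical.epsilon _
    rw [this]
  have h1 : #{a : A // AV 0 a} ≤ #(Set ℕ) := by
    refine Cardinal.mk_le_of_injective
      (f := fun a : {a : A // AV 0 a} => {k : ℕ | AE (k + 1) a.1 (rep k a.1)}) ?_
    rintro ⟨a, ha⟩ ⟨b, hb⟩ hab
    apply Subtype.ext
    show a = b
    apply hA.E_sep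
    intro k
    induction k with
    | zero => exact hA.E_zero a b ha hb
    | succ k ih =>
      have h2 : AE (k + 1) a (rep k a) ↔ AE (k + 1) b (rep k b) := by
        have := Set.ext_iff.mp hab k
        exact this
      have h3 : rep k a = rep k b := hrep2 k a b ih
      by_cases h4 : AE (k + 1) a (rep k a)
      · have h5 := h2.mp h4
        rw [← h3] at h5
        exact hA.E_trans _ _ _ _ h4 (hA.E_symm _ _ _ h5)
      · have h5 : ¬ AE (k + 1) b (rep k b) := fun h' => h4 (h2.mpr h')
        rw [← h3] at h5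
        have h6 : AE k b (rep k a) := by rw [h3]; exact hrep k b hb
        refine hA.E_bin k a (rep k a) b (hrep k a ha) (hA.E_symm _ _ _ h6) h4 ?_
        exact fun h' => h5 (hA.E_symm _ _ _ h')
  rwa [Cardinal.mk_set, Cardinal.mk_nat] at h1

lemma Facts.rank_le (n : ℕ) : #{a : A // AV n a} ≤ #(VT n) := by
  induction n with
  | zero => rw [mk_VT_zero]; exact hA.zero_le
  | succ n ih =>
    rw [mk_VT_succ]
    refine le_trans ?_ (Cardinal.power_le_power_left two_ne_zero ih)
    rw [← Cardinal.mk_set]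
    refine Cardinal.mk_le_of_injective
      (f := fun a : {a : A // AV (n + 1) a} => {c : {a : A // AV n a} | AR c.1 a.1}) ?_
    rintro ⟨a, ha⟩ ⟨b, hb⟩ hab
    apply Subtype.ext
    by_contra hne
    obtain ⟨c, hc, h1, h2⟩ := hA.sep n a b ha hb hne
    have := (Set.ext_iff.mp hab ⟨c, hc⟩).mp h1
    exact h2 this

lemma Facts.Y_le : #{a : A // AY a} ≤ kap := by
  classical
  by_cases hc : #{a : A // AY a} ≤ ℵ₀
  · exact hc.trans aleph0_le_kap
  push Not at hc
  -- a set of `ℵ₁` functions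
  obtain ⟨I, hI⟩ : ∃ I : Set {a : A // AY a}, #I = ℵ₁ := by
    rw [← Cardinal.le_mk_iff_exists_set]
    rw [← Cardinal.succ_aleph0]
    exact Order.succ_le_of_lt hc
  have hcol : ∀ x y : {a : A // AY a}, ∃ n c, AV n c ∧ AC x.1 y.1 c := fun x y =>
    hA.col x.1 y.1 x.2 y.2
  choose r c hr hc' using hcol
  -- infinitely many with the same rank
  have hrank : ∀ y : {a : A // AY a}, ∃ n, (Set.univ ∩ {x : I | r x.1 y = n}).Infinite := by
    intro y
    by_contra hcon
    push Not at hcon
    have h1 : (Set.univ : Set I).Countable := by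
      have h2 : (Set.univ : Set I) = ⋃ n, (Set.univ ∩ {x : I | r x.1 y = n}) := by
        ext x
        simp
      rw [h2]
      exact Set.countable_iUnion fun n => (hcon n).countable
    have h3 : #I ≤ ℵ₀ := by
      rw [Cardinal.mk_le_aleph0_iff]
      exact Set.countable_univ_iff.mp h1
    rw [hI] at h3
    exact absurd h3 (not_le.mpr Cardinal.aleph0_lt_aleph_one)
  choose n hn using hrank
  let s : ∀ y : {a : A // AY a}, ℕ → I := fun y k => ((hn y).natEmbedding _ k : I)
  have hs : ∀ y, Function.Injective (s y) := fun y a b hab =>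
    ((hn y).natEmbedding _).injective (Subtype.ext hab)
  have hsr : ∀ y k, r (s y k).1 y = n y := fun y k => ((hn y).natEmbedding _ k).2.2
  have h1 : #{a : A // AY a} ≤ #(Σ n : ℕ, (ℕ → I) × (ℕ → {a : A // AV n a})) := by
    refine Cardinal.mk_le_of_injective (f := fun y : {a : A // AY a} =>
      (⟨n y, s y, fun k => ⟨c (s y k).1 y, by rw [← hsr y k]; exact hr _ _⟩⟩ :
        Σ n : ℕ, (ℕ → I) × (ℕ → {a : A // AV n a}))) ?_
    intro y z hyz
    by_contra hne
    have hne' : y.1 ≠ z.1 := fun h => hne (Subtype.ext h)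
    have key : s y = s z ∧ ∀ k, c (s y k).1 y = c (s z k).1 z := by
      have h2 : n y = n z := congrArg Sigma.fst hyz
      have h3 := (Sigma.mk.inj hyz).2
      have aux : ∀ (m m' : ℕ) (hm : m = m') (f : ℕ → I) (f' : ℕ → I)
          (g : ℕ → {a : A // AV m a}) (g' : ℕ → {a : A // AV m' a}), HEq (f, g) (f', g') →
          f = f' ∧ ∀ k, (g k).1 = (g' k).1 := by
        intro m m' hm f f' g g' h
        subst hm
        have := eq_of_heq h
        rw [Prod.mk.injEq] at this
        exact ⟨this.1, fun k => by rw [this.2]⟩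
      exact aux _ _ h2 _ _ _ _ h3
    have hfin := hA.fin y.1 z.1 y.2 z.2 hne'
    have hinf : (Set.range fun k => (s y k).1.1).Infinite := by
      apply Set.infinite_range_of_injective
      intro a b hab
      exact hs y (Subtype.ext (Subtype.ext hab))
    refine hinf (hfin.subset ?_)
    rintro x ⟨k, rfl⟩
    refine ⟨c (s y k).1 y, hc' _ _, ?_⟩
    rw [key.2 k, key.1]
    exact hc' _ _
  refine h1.trans ?_
  rw [kap, Cardinal.mk_sigma, Cardinal.mk_sigma]
  refine Cardinal.sum_le_sum _ _ fun n => ?_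
  rw [Cardinal.mk_prod, Cardinal.lift_id, Cardinal.lift_id]
  have h2 : #(ℕ → I) ≤ #(VT n) := by
    rw [← Cardinal.power_def, Cardinal.mk_nat, hI]
    calc ℵ₁ ^ ℵ₀ ≤ (2 ^ ℵ₀) ^ ℵ₀ := Cardinal.power_le_power_right (by
          have := Cardinal.aleph_one_le_continuum
          rwa [← Cardinal.two_power_aleph0] at this)
      _ = 2 ^ ℵ₀ := by rw [← Cardinal.power_mul, Cardinal.aleph0_mul_aleph0]
      _ ≤ #(VT n) := two_pow_le_VT n
  have h3 : #(ℕ → {a : A // AV n a}) ≤ #(VT n) := by
    rw [← Cardinal.power_def, Cardinal.mk_nat, ← VT_pow n]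
    exact Cardinal.power_le_power_right (hA.rank_le n)
  exact (mul_le_mul' h2 h3).trans (Cardinal.mul_eq_self (aleph0_le_VT n)).le

theorem Facts.card_le : #A ≤ kap := by
  classical
  have hQ : #{a : A // AQ a} ≤ #{a : A // AY a} := by
    have hs : ∀ q : {a : A // AQ a}, ∃ y, AY y ∧ AP y q.1 := fun q => hA.surj q.1 q.2
    choose f hf1 hf2 using hs
    refine Cardinal.mk_le_of_injective (f := fun q => (⟨f q, hf1 q⟩ : {a : A // AY a})) ?_
    intro p q hpq
    have h1 : f p = f q := congrArg Subtype.val hpq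
    apply Subtype.ext
    have h2 := hf2 p
    rw [h1] at h2
    exact hA.func _ _ _ h2 (hf2 q)
  have hV : #(Σ n : ℕ, {a : A // AV n a}) ≤ kap := by
    rw [kap, Cardinal.mk_sigma, Cardinal.mk_sigma]
    exact Cardinal.sum_le_sum _ _ fun n => hA.rank_le n
  have h1 : #A ≤ #((Σ n : ℕ, {a : A // AV n a}) ⊕ ({a : A // AY a} ⊕ {a : A // AQ a})) := by
    have hg : Function.Surjective
        (fun x : (Σ n : ℕ, {a : A // AV n a}) ⊕ ({a : A // AY a} ⊕ {a : A // AQ a}) =>
          match x with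
          | Sum.inl x => x.2.1
          | Sum.inr (Sum.inl x) => x.1
          | Sum.inr (Sum.inr x) => x.1) := by
      intro a
      rcases hA.cover a with ⟨n, h⟩ | h | h
      · exact ⟨Sum.inl ⟨n, a, h⟩, rfl⟩
      · exact ⟨Sum.inr (Sum.inl ⟨a, h⟩), rfl⟩
      · exact ⟨Sum.inr (Sum.inr ⟨a, h⟩), rfl⟩
    exact Cardinal.mk_le_of_surjective hg
  refine h1.trans ?_
  simp only [Cardinal.mk_sum, Cardinal.lift_id]
  exact Cardinal.add_le_of_le aleph0_le_kap hV
    (Cardinal.add_le_of_le aleph0_le_kap hA.Y_le (hQ.trans hA.Y_le))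

end

end Pool.Agent.H94.HC
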