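import Mathlib

/-!
# A homogeneously characterizable cardinal of countable cofinality: colour structures

`VStr V`: ranks, equivalence relations `E k` on the elements of rank `0`, a relation `R` between
elements of consecutive ranks. `Good V`: the elements of rank `0` form a dense binary ultrametric
space, and `R` is random.
-/

set_option autoImplicit false

namespace Pool.Agent.H94.HC

open Cardinal

/-- colour structures -/
class VStr (V : Type) where
  /-- rank -/
  rank : V → ℕ
  /-- equivalence relations on the elements of rank `0` -/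
  E : ℕ → V → V → Prop
  /-- relation between elements of consecutive ranks -/
  R : V → V → Prop

export VStr (rank E R)

/-- good colour structures -/
class Good (V : Type) [VStr V] : Prop where
  E_rank : ∀ {k : ℕ} {u v : V}, E k u v → rank u = 0 ∧ rank v = 0
  R_rank : ∀ {u v : V}, R u v → rank v = rank u + 1
  E_refl : ∀ (k : ℕ) {u : V}, rank u = 0 → E k u u
  E_symm : ∀ {k : ℕ} {u v : V}, E k u v → E k v u
  E_trans : ∀ {k : ℕ} {u v w : V}, E k u v → E k v w → E k u w
  E_succ : ∀ {k : ℕ} {u v : V}, E (k + 1) u v → E k u v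
  E_zero : ∀ {u v : V}, rank u = 0 → rank v = 0 → E 0 u v
  E_sep : ∀ {u v : V}, (∀ k, E k u v) → u = v
  E_bin : ∀ {k : ℕ} {u v w : V}, E k u v → E k v w → ¬ E (k + 1) u v → ¬ E (k + 1) v w →
    E (k + 1) u w
  zero_ne : ∃ u : V, rank u = 0
  ext_R : ∀ (n : ℕ) (F P : Finset V), ∃ u : V, u ∉ F ∧ rank u = n + 1 ∧
    ∀ v ∈ F, (rank v = n → (R v u ↔ v ∈ P)) ∧ (rank v = n + 2 → (R u v ↔ v ∈ P))
  ext_E : ∀ (x : V) (k : ℕ) (F P : Finset V), rank x = 0 → ∃ u : V, E k x u ∧ ¬ E (k + 1) x u ∧
    ∀ v ∈ F, rank v = 1 → (R u v ↔ v ∈ P)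

/-- partial isomorphisms of colour structures -/
def PV {V V' : Type} [VStr V] [VStr V'] (p : Set (V × V')) : Prop :=
  ∀ a ∈ p, ∀ b ∈ p, (a.1 = b.1 ↔ a.2 = b.2) ∧ rank a.1 = rank a.2 ∧
    (∀ k, E k a.1 b.1 ↔ E k a.2 b.2) ∧ (R a.1 b.1 ↔ R a.2 b.2)

section

variable {V V' : Type} [VStr V] [VStr V']

lemma PV.mono {p p' : Set (V × V')} (h : PV p') (hp : p ⊆ p') : PV p :=
  fun a ha b hb => h a (hp ha) b (hp hb)

lemma PV.ins {p : Set (V × V')} (h : PV p) {u : V} {u' : V'}
    (hr : rank u = rank u') (hE : ∀ k, E k u u ↔ E k u' u') (hR : R u u ↔ R u' u')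
    (h1 : ∀ a ∈ p, (a.1 = u ↔ a.2 = u') ∧ (∀ k, E k a.1 u ↔ E k a.2 u') ∧
      (∀ k, E k u a.1 ↔ E k u' a.2) ∧ (R a.1 u ↔ R a.2 u') ∧ (R u a.1 ↔ R u' a.2)) :
    PV (insert (u, u') p) := by
  intro a ha b hb
  rcases Set.mem_insert_iff.mp ha with rfl | ha <;> rcases Set.mem_insert_iff.mp hb with rfl | hb
  · exact ⟨by simp, hr, hE, hR⟩
  · obtain ⟨e1, e2, e3, e4, e5⟩ := h1 b hb
    exact ⟨by rw [eq_comm (a := u), e1, eq_comm], hr, e3, e5⟩
  · obtain ⟨e1, e2, e3, e4, e5⟩ := h1 a ha
    exact ⟨e1, (h a ha a ha).2.1, e2, e4⟩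
  · exact h a ha b hb

/-- the first place where `u` and `v` differ -/
lemma exists_delta [Good V] {u v : V} (hu : rank u = 0) (hv : rank v = 0) (h : u ≠ v) :
    ∃ k, E k u v ∧ ¬ E (k + 1) u v := by
  by_contra hcon
  push Not at hcon
  apply h
  apply Good.E_sep
  intro k
  induction k with
  | zero => exact Good.E_zero hu hv
  | succ k ih => exact hcon k ih

lemma E_mono [Good V] {u v : V} {j k : ℕ} (hjk : j ≤ k) (h : E k u v) : E j u v := by
  induction hjk with
  | refl => exact h
  | step _ ih => exact ih (Good.E_succ h)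

theorem PV.ext [Good V] [Good V'] {p : Set (V × V')} (hf : p.Finite) (h : PV p) (u : V) :
    ∃ u' : V', PV (insert (u, u') p) := by
  classical
  by_cases hu : ∃ a ∈ p, a.1 = u
  · obtain ⟨a, ha, rfl⟩ := hu
    exact ⟨a.2, by rwa [Set.insert_eq_of_mem ha]⟩
  push Not at hu
  obtain ⟨F, hF⟩ : ∃ F : Finset V', ∀ v, v ∈ F ↔ ∃ a ∈ p, a.2 = v :=
    ⟨(hf.image Prod.snd).toFinset, fun v => by simp⟩
  have hPex : ∀ D : V → Prop, ∃ P : Finset V', ∀ a ∈ p, (a.2 ∈ P ↔ D a.1) := by
    intro D
    refine ⟨((hf.subset (Set.sep_subset p (fun a => D a.1))).image Prod.snd).toFinset, ?_⟩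
    intro a ha
    simp only [Set.Finite.mem_toFinset, Set.mem_image, Set.mem_ofPred_eq]
    constructor
    · rintro ⟨b, ⟨hb, hD⟩, hba⟩
      have : b.1 = a.1 := (h b hb a ha).1.mpr hba
      rwa [← this]
    · intro hD
      exact ⟨a, ⟨ha, hD⟩, rfl⟩
  rcases Nat.eq_zero_or_pos (rank u) with h0 | h0
  · -- rank zero
    obtain ⟨P, hP⟩ := hPex (fun v => R u v)
    by_cases hne : ∃ a ∈ p, rank a.1 = 0
    · -- choose the closest element
      have hex : ∃ a ∈ p, rank a.1 = 0 ∧ ∃ k, E k a.1 u ∧ ¬ E (k + 1) a.1 u ∧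
          ∀ b ∈ p, rank b.1 = 0 → ¬ E (k + 1) b.1 u := by
        have hfin : {a ∈ p | rank a.1 = 0}.Finite := hf.subset (Set.sep_subset _ _)
        have hδ : ∀ a : V × V', ∃ k, a ∈ p → rank a.1 = 0 → E k a.1 u ∧ ¬ E (k + 1) a.1 u := by
          intro a
          by_cases ha : a ∈ p ∧ rank a.1 = 0
          · obtain ⟨k, hk⟩ := exists_delta ha.2 h0 (hu a ha.1)
            exact ⟨k, fun _ _ => hk⟩
          · exact ⟨0, fun h1 h2 => absurd ⟨h1, h2⟩ ha⟩
        choose δ hδ using hδ
        obtain ⟨a, ha, hmax⟩ := hfin.exists_maximalFor δ _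
          (by obtain ⟨a, ha, ha0⟩ := hne; exact ⟨a, ha, ha0⟩)
        refine ⟨a, ha.1, ha.2, δ a, (hδ a ha.1 ha.2).1, (hδ a ha.1 ha.2).2, ?_⟩
        intro b hb hb0 hE
        have h1 := (hδ b hb hb0).2
        have h2 : δ b ≤ δ a := by
          by_contra hcon
          push Not at hcon
          exact absurd (hmax ⟨hb, hb0⟩ hcon.le) (by omega)
        exact h1 (E_mono (by omega) hE)
      obtain ⟨a, ha, ha0, k, hk1, hk2, hk3⟩ := hex
      have ha0' : rank a.2 = 0 := by rw [← (h a ha a ha).2.1]; exact ha0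
      obtain ⟨u', hu1, hu2, hu3⟩ := Good.ext_E a.2 k F P ha0'
      have hu0 : rank u' = 0 := (Good.E_rank hu1).2
      have key : ∀ b ∈ p, rank b.1 = 0 → ∀ j, E j b.1 u ↔ E j b.2 u' := by
        intro b hb hb0 j
        rcases Nat.lt_or_ge k j with hj | hj
        · refine iff_of_false (fun hE => hk3 b hb hb0 (E_mono (by omega) hE)) ?_
          intro hE
          have e1 : E (k + 1) b.2 u' := E_mono (by omega) hE
          have e2 : ¬ E (k + 1) a.2 b.2 := fun h' => hu2 (Good.E_trans h' e1)
          have e3 : ¬ E (k + 1) a.1 b.1 := fun h' => e2 (((h a ha b hb).2.2.1 _).mp h')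
          have e4 : E k a.2 b.2 := Good.E_trans hu1 (Good.E_symm (Good.E_succ e1))
          have e5 : E k a.1 b.1 := ((h a ha b hb).2.2.1 _).mpr e4
          have e6 : E (k + 1) u b.1 := Good.E_bin (Good.E_symm hk1) e5
            (fun h' => hk2 (Good.E_symm h')) e3
          exact hk3 b hb hb0 (Good.E_symm e6)
        · have e1 : E j a.1 u := E_mono hj hk1
          have e2 : E j a.2 u' := E_mono hj hu1
          constructor
          · intro hE
            have e3 : E j b.1 a.1 := Good.E_trans hE (Good.E_symm e1)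
            exact Good.E_trans (((h b hb a ha).2.2.1 _).mp e3) e2
          · intro hE
            have e3 : E j b.2 a.2 := Good.E_trans hE (Good.E_symm e2)
            exact Good.E_trans (((h b hb a ha).2.2.1 _).mpr e3) e1
      refine ⟨u', h.ins (by rw [h0, hu0])
        (fun k => iff_of_true (Good.E_refl k h0) (Good.E_refl k hu0))
        (iff_of_false (fun h' => by have := Good.R_rank h'; omega)
          (fun h' => by have := Good.R_rank h'; omega)) ?_⟩
      intro b hb
      have hrb := (h b hb b hb).2.1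
      have hbne := hu b hb
      have hE : ∀ k, E k b.1 u ↔ E k b.2 u' := by
        intro j
        by_cases hb0 : rank b.1 = 0
        · exact key b hb hb0 j
        · exact iff_of_false (fun h' => hb0 (Good.E_rank h').1)
            (fun h' => hb0 (by rw [hrb]; exact (Good.E_rank h').1))
      refine ⟨iff_of_false hbne ?_, hE, fun j => ⟨fun h' => Good.E_symm ((hE j).mp (Good.E_symm h')),
        fun h' => Good.E_symm ((hE j).mpr (Good.E_symm h'))⟩,
        iff_of_false (fun h' => by have := Good.R_rank h'; omega)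
          (fun h' => by have := Good.R_rank h'; omega), ?_⟩
      · intro heq
        have hb0 : rank b.1 = 0 := by rw [hrb, heq]; exact hu0
        apply hk3 b hb hb0
        rw [hE, heq]
        exact Good.E_refl _ hu0
      · by_cases hb1 : rank b.1 = 1
        · rw [hu3 b.2 ((hF _).mpr ⟨b, hb, rfl⟩) (by rw [← hrb]; exact hb1), hP b hb]
        · refine iff_of_false (fun h' => hb1 ?_) (fun h' => hb1 ?_)
          · rw [Good.R_rank h', h0]
          · rw [hrb, Good.R_rank h', hu0]
    · push Not at hne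
      obtain ⟨x, hx⟩ := Good.zero_ne (V := V')
      obtain ⟨u', hu1, hu2, hu3⟩ := Good.ext_E x 0 F P hx
      have hu0 : rank u' = 0 := (Good.E_rank hu1).2
      refine ⟨u', h.ins (by rw [h0, hu0])
        (fun k => iff_of_true (Good.E_refl k h0) (Good.E_refl k hu0))
        (iff_of_false (fun h' => by have := Good.R_rank h'; omega)
          (fun h' => by have := Good.R_rank h'; omega)) ?_⟩
      intro b hb
      have hrb := (h b hb b hb).2.1
      have hb0 := hne b hb
      have hb0' : rank b.2 ≠ 0 := by rw [← hrb]; exact hb0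
      refine ⟨iff_of_false (hu b hb) (fun heq => hb0' (by rw [heq]; exact hu0)),
        fun j => iff_of_false (fun h' => hb0 (Good.E_rank h').1) (fun h' => hb0' (Good.E_rank h').1),
        fun j => iff_of_false (fun h' => hb0 (Good.E_rank h').2) (fun h' => hb0' (Good.E_rank h').2),
        iff_of_false (fun h' => by have := Good.R_rank h'; omega)
          (fun h' => by have := Good.R_rank h'; omega), ?_⟩
      by_cases hb1 : rank b.1 = 1
      · rw [hu3 b.2 ((hF _).mpr ⟨b, hb, rfl⟩) (by rw [← hrb]; exact hb1), hP b hb]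
      · refine iff_of_false (fun h' => hb1 ?_) (fun h' => hb1 ?_)
        · rw [Good.R_rank h', h0]
        · rw [hrb, Good.R_rank h', hu0]
  · -- positive rank
    obtain ⟨n, hn⟩ : ∃ n, rank u = n + 1 := ⟨rank u - 1, by omega⟩
    obtain ⟨P, hP⟩ := hPex (fun v => R u v ∨ R v u)
    obtain ⟨u', hu1, hu2, hu3⟩ := Good.ext_R n F P
    refine ⟨u', h.ins (by rw [hn, hu2])
      (fun k => iff_of_false (fun h' => by have := (Good.E_rank h').1; omega)
        (fun h' => by have := (Good.E_rank h').1; omega))
      (iff_of_false (fun h' => by have := Good.R_rank h'; omega)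
          (fun h' => by have := Good.R_rank h'; omega)) ?_⟩
    intro b hb
    have hrb := (h b hb b hb).2.1
    have hbF : b.2 ∈ F := (hF _).mpr ⟨b, hb, rfl⟩
    refine ⟨iff_of_false (hu b hb) (fun heq => hu1 (by rw [← heq]; exact hbF)),
        fun j => iff_of_false (fun h' => by have := (Good.E_rank h').2; omega)
          (fun h' => by have := (Good.E_rank h').2; omega),
        fun j => iff_of_false (fun h' => by have := (Good.E_rank h').1; omega)
          (fun h' => by have := (Good.E_rank h').1; omega), ?_, ?_⟩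
    · by_cases hb1 : rank b.1 = n
      · rw [(hu3 b.2 hbF).1 (by rw [← hrb]; exact hb1), hP b hb]
        constructor
        · exact fun h' => Or.inr h'
        · rintro (h' | h')
          · have := Good.R_rank h'; omega
          · exact h'
      · exact iff_of_false (fun h' => hb1 (by have := Good.R_rank h'; omega))
          (fun h' => hb1 (by have := Good.R_rank h'; omega))
    · by_cases hb1 : rank b.1 = n + 2
      · rw [(hu3 b.2 hbF).2 (by rw [← hrb]; exact hb1), hP b hb]
        constructor
        · exact fun h' => Or.inl h'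
        · rintro (h' | h')
          · exact h'
          · have := Good.R_rank h'; omega
      · exact iff_of_false (fun h' => hb1 (by have := Good.R_rank h'; omega))
          (fun h' => hb1 (by have := Good.R_rank h'; omega))

end

end Pool.Agent.H94.HC
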