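import Pool.Agent.H94.HC.Defs

/-!
# Good colour structures of smaller cardinality
-/

set_option autoImplicit false
set_option linter.unusedSectionVars false

namespace Pool.Agent.H94.HC

open Cardinal

/-- the induced structure on a subset -/
@[reducible] def subVStr {V : Type} [VStr V] (S : Set V) : VStr S where
  rank u := rank u.1
  E k u v := E k u.1 v.1
  R u v := R u.1 v.1

theorem exists_good (V : Type) [VStr V] [Good V] {μ : Cardinal.{0}} (h1 : ℵ₀ ≤ μ) (h2 : μ ≤ #V) :
    ∃ (W : Type) (_ : VStr W), Good W ∧ #W = μ := by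
  classical
  choose wR hR1 hR2 hR3 using (Good.ext_R (V := V))
  have hE' : ∀ (x : V) (k : ℕ) (F P : Finset V), ∃ u : V, rank x = 0 → E k x u ∧ ¬ E (k + 1) x u ∧
      ∀ v ∈ F, rank v = 1 → (R u v ↔ v ∈ P) := by
    intro x k F P
    by_cases hx : rank x = 0
    · obtain ⟨u, hu⟩ := Good.ext_E x k F P hx
      exact ⟨u, fun _ => hu⟩
    · exact ⟨x, fun h => absurd h hx⟩
  choose wE hE using hE'
  obtain ⟨x0, hx0⟩ := Good.zero_ne (V := V)
  obtain ⟨S0, hS0⟩ := Cardinal.le_mk_iff_exists_set.mp h2
  -- the closure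
  let lift : ∀ C : Set V, Finset C → Finset V := fun C F => F.map (Function.Embedding.subtype _)
  let step : Set V → Set V := fun C => C ∪
    ((Set.range fun t : ℕ × Finset C × Finset C => wR t.1 (lift C t.2.1) (lift C t.2.2)) ∪
    (Set.range fun t : C × ℕ × Finset C × Finset C =>
      wE t.1.1 t.2.1 (lift C t.2.2.1) (lift C t.2.2.2)))
  let C : ℕ → Set V := fun j => Nat.rec (motive := fun _ => Set V) (insert x0 S0) (fun _ D => step D) j
  have hC0 : C 0 = insert x0 S0 := rfl
  have hCs : ∀ j, C (j + 1) = step (C j) := fun j => rfl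
  have hmono : Monotone C := monotone_nat_of_le_succ fun j => by
    rw [hCs]; exact Set.subset_union_left
  have hcard : ∀ j, #(↥(C j)) ≤ μ := by
    intro j
    induction j with
    | zero =>
      rw [hC0]
      refine (Cardinal.mk_insert_le).trans ?_
      rw [hS0]
      exact Cardinal.add_le_of_le h1 le_rfl (Cardinal.one_lt_aleph0.le.trans h1)
    | succ j ih =>
      rw [hCs]
      have hF : #(Finset ↥(C j)) ≤ μ := by
        refine (Cardinal.mk_le_of_surjective (f := fun l : List ↥(C j) => l.toFinset) ?_).trans ?_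
        · intro F
          exact ⟨F.toList, by simp⟩
        · exact (Cardinal.mk_list_le_max _).trans (max_le h1 ih)
      refine (Cardinal.mk_union_le _ _).trans (Cardinal.add_le_of_le h1 ih ?_)
      refine (Cardinal.mk_union_le _ _).trans (Cardinal.add_le_of_le h1 ?_ ?_)
      · refine Cardinal.mk_range_le.trans ?_
        simp only [Cardinal.mk_prod, Cardinal.lift_id, Cardinal.mk_nat]
        exact Cardinal.mul_le_of_le h1 h1 (Cardinal.mul_le_of_le h1 hF hF)
      · refine Cardinal.mk_range_le.trans ?_
        simp only [Cardinal.mk_prod, Cardinal.lift_id, Cardinal.mk_nat]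
        exact Cardinal.mul_le_of_le h1 ih (Cardinal.mul_le_of_le h1 h1
          (Cardinal.mul_le_of_le h1 hF hF))
  let S : Set V := ⋃ j, C j
  have hSle : #S ≤ μ := by
    refine (Cardinal.mk_iUnion_le_sum_mk).trans ?_
    refine (Cardinal.sum_le_sum _ (fun _ : ℕ => μ) hcard).trans ?_
    rw [Cardinal.sum_const, Cardinal.lift_id, Cardinal.lift_id, Cardinal.mk_nat]
    exact Cardinal.mul_le_of_le h1 h1 le_rfl
  have hSge : μ ≤ #S := by
    rw [← hS0]
    refine Cardinal.mk_le_mk_of_subset ?_
    intro x hx
    exact Set.mem_iUnion.mpr ⟨0, Set.mem_insert_of_mem _ hx⟩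
  have hfin : ∀ F : Finset S, ∃ j, ∀ x ∈ F, (x : V) ∈ C j := by
    intro F
    induction F using Finset.induction_on with
    | empty => exact ⟨0, fun x hx => absurd hx (Finset.notMem_empty x)⟩
    | insert x F _ ih =>
      obtain ⟨j, hj⟩ := ih
      obtain ⟨i, hi⟩ := Set.mem_iUnion.mp x.2
      refine ⟨max i j, fun y hy => ?_⟩
      rcases Finset.mem_insert.mp hy with rfl | hy
      · exact hmono (le_max_left _ _) hi
      · exact hmono (le_max_right _ _) (hj y hy)
  have hdown : ∀ (F : Finset S) (j : ℕ), (∀ x ∈ F, (x : V) ∈ C j) →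
      ∃ F' : Finset ↥(C j), lift (C j) F' = F.map (Function.Embedding.subtype _) := by
    intro F j hj
    refine ⟨Finset.subtype (fun x : V => x ∈ C j) (F.map (Function.Embedding.subtype _)), ?_⟩
    show (Finset.subtype (fun x : V => x ∈ C j) (F.map (Function.Embedding.subtype _))).map
      (Function.Embedding.subtype _) = _
    rw [Finset.subtype_map, Finset.filter_true_of_mem]
    intro x hx
    obtain ⟨y, hy, rfl⟩ := Finset.mem_map.mp hx
    exact hj y hy
  have hclR : ∀ (n : ℕ) (F P : Finset S), wR n (F.map (Function.Embedding.subtype _))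
      (P.map (Function.Embedding.subtype _)) ∈ S := by
    intro n F P
    obtain ⟨i, hi⟩ := hfin F
    obtain ⟨j, hj⟩ := hfin P
    obtain ⟨F', hF'⟩ := hdown F (max i j) fun x hx => hmono (le_max_left _ _) (hi x hx)
    obtain ⟨P', hP'⟩ := hdown P (max i j) fun x hx => hmono (le_max_right _ _) (hj x hx)
    refine Set.mem_iUnion.mpr ⟨max i j + 1, ?_⟩
    rw [hCs]
    exact Or.inr (Or.inl ⟨(n, F', P'), by rw [← hF', ← hP']⟩)
  have hclE : ∀ (x : S) (k : ℕ) (F P : Finset S), wE x.1 k (F.map (Function.Embedding.subtype _))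
      (P.map (Function.Embedding.subtype _)) ∈ S := by
    intro x k F P
    obtain ⟨i, hi⟩ := hfin (insert x F)
    obtain ⟨j, hj⟩ := hfin P
    obtain ⟨F', hF'⟩ := hdown F (max i j) fun x hx => hmono (le_max_left _ _)
      (hi x (Finset.mem_insert_of_mem hx))
    obtain ⟨P', hP'⟩ := hdown P (max i j) fun x hx => hmono (le_max_right _ _) (hj x hx)
    refine Set.mem_iUnion.mpr ⟨max i j + 1, ?_⟩
    rw [hCs]
    exact Or.inr (Or.inr ⟨(⟨x.1, hmono (le_max_left _ _) (hi x (Finset.mem_insert_self _ _))⟩, k,
      F', P'), by rw [← hF', ← hP']⟩)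
  refine ⟨S, subVStr S, ?_, le_antisymm hSle hSge⟩
  let _ := subVStr S
  exact
    { E_rank := fun h => Good.E_rank (V := V) h
      R_rank := fun h => Good.R_rank (V := V) h
      E_refl := fun k _ h => Good.E_refl (V := V) k h
      E_symm := fun h => Good.E_symm (V := V) h
      E_trans := fun h h' => Good.E_trans (V := V) h h'
      E_succ := fun h => Good.E_succ (V := V) h
      E_zero := fun h h' => Good.E_zero (V := V) h h'
      E_sep := fun h => Subtype.ext (Good.E_sep (V := V) h)
      E_bin := fun h h' h'' h''' => Good.E_bin (V := V) h h' h'' h'''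
      zero_ne := ⟨⟨x0, Set.mem_iUnion.mpr ⟨0, Set.mem_insert _ _⟩⟩, hx0⟩
      ext_R := by
        intro n F P
        refine ⟨⟨_, hclR n F P⟩, ?_, hR2 _ _ _, ?_⟩
        · intro h
          exact hR1 n (F.map (Function.Embedding.subtype _)) (P.map (Function.Embedding.subtype _))
            (Finset.mem_map.mpr ⟨_, h, rfl⟩)
        · intro v hv
          have h3 := hR3 n (F.map (Function.Embedding.subtype _))
            (P.map (Function.Embedding.subtype _)) v.1 (Finset.mem_map.mpr ⟨v, hv, rfl⟩)
          have h4 : v.1 ∈ P.map (Function.Embedding.subtype _) ↔ v ∈ P := by simp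
          rw [h4] at h3
          exact h3
      ext_E := by
        intro x k F P hx
        have h3 := hE x.1 k (F.map (Function.Embedding.subtype _))
            (P.map (Function.Embedding.subtype _)) hx
        refine ⟨⟨_, hclE x k F P⟩, h3.1, h3.2.1, ?_⟩
        intro v hv hr
        have h5 := h3.2.2 v.1 (Finset.mem_map.mpr ⟨v, hv, rfl⟩) hr
        have h4 : v.1 ∈ P.map (Function.Embedding.subtype _) ↔ v ∈ P := by simp
        rw [h4] at h5
        exact h5 }

end Pool.Agent.H94.HC
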