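import Pool.Agent.H94.HC.Big
import Pool.Agent.H94.HC.LS

/-!
# `ℶ_ω` is homogeneously characterizable
-/

set_option autoImplicit false
set_option linter.unusedSectionVars false

namespace Pool.Agent.H94.HC

open Cardinal FirstOrder FirstOrder.Language

theorem cof_kap : kap.ord.cof = ℵ₀ := by
  have hmono : StrictMono fun n : ℕ => (#(VT n)).ord := by
    refine strictMono_nat_of_lt_succ fun n => ?_
    rw [Cardinal.ord_lt_ord, mk_VT_succ]
    exact Cardinal.cantor _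
  have hsup : kap.ord = ⨆ n : ℕ, (#(VT n)).ord := by
    apply le_antisymm
    · rw [Cardinal.ord_le]
      have h1 : ∀ n, #(VT n) ≤ (⨆ n : ℕ, (#(VT n)).ord).card := by
        intro n
        rw [← Cardinal.ord_le]
        exact Ordinal.le_iSup (fun n : ℕ => (#(VT n)).ord) n
      rw [kap, Cardinal.mk_sigma]
      refine (Cardinal.sum_le_sum _ (fun _ : ℕ => (⨆ n : ℕ, (#(VT n)).ord).card) h1).trans ?_
      rw [Cardinal.sum_const, Cardinal.lift_id, Cardinal.lift_id, Cardinal.mk_nat]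
      have h2 : ℵ₀ ≤ (⨆ n : ℕ, (#(VT n)).ord).card := (aleph0_le_VT 0).trans (h1 0)
      exact Cardinal.mul_le_of_le h2 h2 le_rfl
    · exact Ordinal.iSup_le fun n => Cardinal.ord_le_ord.mpr (VT_le_kap n)
  rw [hsup, Ordinal.cof_iSup hmono]
  exact Order.cof_nat

section

variable {V Q : Type} [VStr V] [Infinite V] {hQ : #Q ≤ #V}

lemma mk_Dom : #(Dom V Q hQ) = #V := by
  have h1 : #(Dom V Q hQ) = #V + (#(Y V Q) + #Q) := by
    show #(V ⊕ (Y V Q ⊕ Q)) = _
    simp only [Cardinal.mk_sum, Cardinal.lift_id]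
  rw [h1]
  have hV := Cardinal.aleph0_le_mk V
  apply le_antisymm
  · exact Cardinal.add_le_of_le hV le_rfl (Cardinal.add_le_of_le hV (mk_Y_le hQ) hQ)
  · exact self_le_add_right _ _

/-- the classes -/
noncomputable def eqQ : {a : Dom V Q hQ // Structure.RelMap (L := HL) HRel.q ![a]} ≃ Q where
  toFun a := a.2.choose
  invFun q := ⟨Sum.inr (Sum.inr q), q, rfl⟩
  left_inv a := by
    apply Subtype.ext
    exact a.2.choose_spec.symm
  right_inv q := by
    have h : ∃ q' : Q, (Sum.inr (Sum.inr q) : Dom V Q hQ) = Sum.inr (Sum.inr q') := ⟨q, rfl⟩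
    have h1 := h.choose_spec
    exact (Sum.inr.inj (Sum.inr.inj h1)).symm

lemma eqQ_symm (q : Q) : ((eqQ (hQ := hQ)).symm q : Dom V Q hQ) = Sum.inr (Sum.inr q) := rfl

end

lemma card_HL : HL.card ≤ ℵ₀ := by
  have h1 : Countable (Σ l, HL.Relations l) := by
    let f : (Σ l, HL.Relations l) → ℕ × ℕ := fun x =>
      match x with
      | ⟨_, HRel.q⟩ => (0, 0)
      | ⟨_, HRel.y⟩ => (1, 0)
      | ⟨_, HRel.v n⟩ => (2, n)
      | ⟨_, HRel.E n⟩ => (3, n)
      | ⟨_, HRel.R⟩ => (4, 0)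
      | ⟨_, HRel.pi⟩ => (5, 0)
      | ⟨_, HRel.e⟩ => (6, 0)
    have hf : Function.Injective f := by
      rintro ⟨l, x⟩ ⟨l', x'⟩ h
      cases x <;> cases x' <;> simp_all [f]
    exact hf.countable
  have h2 : Countable (Σ l, HL.Functions l) := by
    have : IsEmpty (Σ l, HL.Functions l) := ⟨fun x => Empty.elim x.2⟩
    infer_instance
  rw [FirstOrder.Language.card, Cardinal.mk_le_aleph0_iff]
  exact inferInstanceAs (Countable ((Σ l, HL.Functions l) ⊕ (Σ l, HL.Relations l)))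

theorem char_and_hom :
    (∃ (L : FirstOrder.Language.{0, 0}) (M : Type) (_ : L.Structure M),
      L.card ≤ ℵ₀ ∧ Countable M ∧
      (∀ μ : Cardinal.{0}, ℵ₀ ≤ μ → μ ≤ kap → ∃ (A : Type) (_ : L.Structure A), #A = μ ∧
        BFc L M A) ∧
      (∀ (A : Type) (_ : L.Structure A), BFc L M A → #A ≠ Order.succ kap)) ∧
    (∃ (L : FirstOrder.Language.{0, 0}) (M : Type) (_ : L.Structure M),
      L.card ≤ ℵ₀ ∧ Countable M ∧ ∃ P : L.Relations 1,
        Set.Infinite {x : M | Structure.RelMap P ![x]} ∧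
        (∀ σ : _root_.Equiv.Perm {x : M // Structure.RelMap P ![x]},
          ∃ e : L.Equiv M M, ∀ x : {x : M // Structure.RelMap P ![x]}, e x.1 = (σ x).1) ∧
        (∀ (A : Type) (_ : L.Structure A), BFc L M A → #A ≤ kap) ∧
        (∃ (A : Type) (_ : L.Structure A), BFc L M A ∧
          #{a : A // Structure.RelMap P ![a]} = kap)) := by
  obtain ⟨W, iW, gW, hW⟩ := exists_good BigV le_rfl (μ := ℵ₀) aleph0_le_kap
  have infW : Infinite W := Cardinal.infinite_iff.mpr hW.ge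
  have cW : Countable W := Cardinal.mk_le_aleph0_iff.mp hW.le
  have hQ : #ℕ ≤ #W := by rw [hW, Cardinal.mk_nat]
  have hM : Countable (Dom W ℕ hQ) := by
    rw [← Cardinal.mk_le_aleph0_iff, mk_Dom, hW]
  have hup : ∀ (A : Type) (_ : HL.Structure A), BFc HL (Dom W ℕ hQ) A → #A ≤ kap :=
    fun A _ h => (facts_of_bfc h).card_le
  refine ⟨⟨HL, Dom W ℕ hQ, inferInstance, card_HL, hM, ?_, ?_⟩,
    ⟨HL, Dom W ℕ hQ, inferInstance, card_HL, hM, HRel.q, ?_, ?_, hup, ?_⟩⟩
  · intro μ h1 h2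
    obtain ⟨W', iW', gW', hW'⟩ := exists_good BigV h1 h2
    have infW' : Infinite W' := Cardinal.infinite_iff.mpr (h1.trans hW'.ge)
    have hQ' : #ℕ ≤ #W' := by rw [hW', Cardinal.mk_nat]; exact h1
    exact ⟨Dom W' ℕ hQ', inferInstance, by rw [mk_Dom, hW'], bfc hQ hQ'⟩
  · intro A iA hA heq
    have h1 := hup A iA hA
    rw [heq] at h1
    exact absurd h1 (not_le.mpr (Order.lt_succ kap))
  · rw [← Set.infinite_coe_iff]
    exact Infinite.of_injective (eqQ (hQ := hQ)).symm (eqQ (hQ := hQ)).symm.injective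
  · intro σ
    obtain ⟨e, he⟩ := homog hQ ((eqQ (hQ := hQ)).symm.trans (σ.trans (eqQ (hQ := hQ))))
    refine ⟨e, ?_⟩
    intro x
    obtain ⟨q, rfl⟩ := (eqQ (hQ := hQ)).symm.surjective x
    have h1 := he q
    rw [eqQ_symm, h1]
    show ((eqQ (hQ := hQ)).symm (((eqQ (hQ := hQ)).symm.trans (σ.trans (eqQ (hQ := hQ)))) q) :
      Dom W ℕ hQ) = _
    simp
  · have infB : Infinite BigV := Cardinal.infinite_iff.mpr aleph0_le_kap
    refine ⟨Dom BigV BigV le_rfl, inferInstance, bfc hQ le_rfl, ?_⟩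
    rw [Cardinal.mk_congr (eqQ (V := BigV) (Q := BigV) (hQ := le_rfl))]
    rfl

end Pool.Agent.H94.HC
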