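import Mathlib

/-!
# Relational languages: partial isomorphisms given by sets of pairs
-/

set_option autoImplicit false
set_option linter.unusedSectionVars false

namespace Pool.Agent.H94.HC

open FirstOrder FirstOrder.Language

section

variable {L : FirstOrder.Language.{0, 0}} [L.IsRelational] {M A : Type} [L.Structure M] [L.Structure A]

/-- partial isomorphisms as sets of pairs -/
structure PIso (L : FirstOrder.Language.{0, 0}) {M A : Type} [L.Structure M] [L.Structure A]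
    (Γ : Set (M × A)) : Prop where
  inj : ∀ a ∈ Γ, ∀ b ∈ Γ, a.1 = b.1 ↔ a.2 = b.2
  rel : ∀ (n : ℕ) (r : L.Relations n) (x : Fin n → M) (y : Fin n → A), (∀ i, (x i, y i) ∈ Γ) →
    (Structure.RelMap r x ↔ Structure.RelMap r y)

/-- a set as a substructure -/
def relSub (L : FirstOrder.Language.{0, 0}) [L.IsRelational] {M : Type} [L.Structure M] (S : Set M) :
    L.Substructure M where
  carrier := S
  fun_mem := fun f => isEmptyElim f

lemma mem_relSub {S : Set M} {x : M} : x ∈ relSub L S ↔ x ∈ S := Iff.rfl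

lemma relSub_fg {S : Set M} (hS : S.Finite) : (relSub L S).FG := by
  rw [Substructure.fg_def]
  refine ⟨S, hS, ?_⟩
  apply le_antisymm
  · rw [Substructure.closure_le]
    exact fun x hx => hx
  · intro x hx
    exact Substructure.subset_closure hx

/-- the equivalence of types given by a partial isomorphism -/
noncomputable def PIso.toE {Γ : Set (M × A)} (h : PIso L Γ) : (Prod.fst '' Γ) ≃ (Prod.snd '' Γ) where
  toFun x := ⟨x.2.choose.2, x.2.choose, x.2.choose_spec.1, rfl⟩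
  invFun y := ⟨y.2.choose.1, y.2.choose, y.2.choose_spec.1, rfl⟩
  left_inv x := by
    apply Subtype.ext
    have hx := x.2.choose_spec
    have hy : ∃ a ∈ Γ, a.2 = x.2.choose.2 := ⟨x.2.choose, hx.1, rfl⟩
    have h1 := hy.choose_spec
    exact ((h.inj _ h1.1 _ hx.1).mpr h1.2).trans hx.2
  right_inv y := by
    apply Subtype.ext
    have hy := y.2.choose_spec
    have hx : ∃ a ∈ Γ, a.1 = y.2.choose.1 := ⟨y.2.choose, hy.1, rfl⟩
    have h1 := hx.choose_spec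
    exact ((h.inj _ h1.1 _ hy.1).mp h1.2).trans hy.2

lemma PIso.toE_spec {Γ : Set (M × A)} (h : PIso L Γ) {a : M × A} (ha : a ∈ Γ) :
    (h.toE ⟨a.1, a, ha, rfl⟩ : A) = a.2 := by
  have hx : ∃ b ∈ Γ, b.1 = a.1 := ⟨a, ha, rfl⟩
  have h1 := hx.choose_spec
  show hx.choose.2 = a.2
  exact (h.inj _ h1.1 _ ha).mp h1.2

lemma PIso.toE_mem {Γ : Set (M × A)} (h : PIso L Γ) (x : Prod.fst '' Γ) :
    ((x : M), (h.toE x : A)) ∈ Γ := by
  obtain ⟨x, a, ha, rfl⟩ := x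
  rw [h.toE_spec ha]
  exact ha

/-- the partial equivalence -/
noncomputable def PIso.toPE {Γ : Set (M × A)} (h : PIso L Γ) : L.PartialEquiv M A where
  dom := relSub L (Prod.fst '' Γ)
  cod := relSub L (Prod.snd '' Γ)
  toEquiv :=
    { toEquiv := h.toE
      map_fun' := fun f => isEmptyElim f
      map_rel' := by
        intro n r x
        exact (h.rel n r (fun i => (x i : M)) (fun i => (h.toE (x i) : A))
          fun i => h.toE_mem (x i)).symm }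

lemma PIso.toPE_le {Γ Γ' : Set (M × A)} (h : PIso L Γ) (h' : PIso L Γ') (hs : Γ ⊆ Γ') :
    h.toPE ≤ h'.toPE := by
  rw [FirstOrder.Language.PartialEquiv.le_iff]
  refine ⟨Set.image_mono hs, Set.image_mono hs, ?_⟩
  rintro ⟨x, a, ha, rfl⟩
  apply Subtype.ext
  show (h.toE ⟨a.1, a, ha, rfl⟩ : A) = (h'.toE ⟨a.1, a, hs ha, rfl⟩ : A)
  rw [h.toE_spec ha, h'.toE_spec (hs ha)]

/-- the back-and-forth condition of the frozen statement -/
def BFc (L : FirstOrder.Language.{0, 0}) (M A : Type) [L.Structure M] [L.Structure A] : Prop :=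
  ∃ S : Set (L.PartialEquiv M A), S.Nonempty ∧ (∀ f ∈ S, f.dom.FG) ∧
    (∀ f ∈ S, ∀ m : M, ∃ g ∈ S, f ≤ g ∧ m ∈ g.dom) ∧
    (∀ f ∈ S, ∀ a : A, ∃ g ∈ S, f ≤ g ∧ a ∈ g.cod)

/-- a system of finite partial isomorphisms gives the back-and-forth condition -/
theorem bfc_of_system (𝒮 : Set (Set (M × A))) (hne : 𝒮.Nonempty) (hiso : ∀ Γ ∈ 𝒮, PIso L Γ)
    (hfin : ∀ Γ ∈ 𝒮, Γ.Finite) (hf : ∀ Γ ∈ 𝒮, ∀ m : M, ∃ Γ' ∈ 𝒮, Γ ⊆ Γ' ∧ ∃ a ∈ Γ', a.1 = m)
    (hb : ∀ Γ ∈ 𝒮, ∀ b : A, ∃ Γ' ∈ 𝒮, Γ ⊆ Γ' ∧ ∃ a ∈ Γ', a.2 = b) : BFc L M A := by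
  refine ⟨{f | ∃ (Γ : Set (M × A)) (h : Γ ∈ 𝒮), f = (hiso Γ h).toPE}, ?_, ?_, ?_, ?_⟩
  · obtain ⟨Γ, hΓ⟩ := hne
    exact ⟨_, Γ, hΓ, rfl⟩
  · rintro f ⟨Γ, hΓ, rfl⟩
    exact relSub_fg ((hfin Γ hΓ).image _)
  · rintro f ⟨Γ, hΓ, rfl⟩ m
    obtain ⟨Γ', hΓ', hs, a, ha, rfl⟩ := hf Γ hΓ m
    exact ⟨_, ⟨Γ', hΓ', rfl⟩, PIso.toPE_le _ _ hs, a, ha, rfl⟩
  · rintro f ⟨Γ, hΓ, rfl⟩ b
    obtain ⟨Γ', hΓ', hs, a, ha, rfl⟩ := hb Γ hΓ b
    exact ⟨_, ⟨Γ', hΓ', rfl⟩, PIso.toPE_le _ _ hs, a, ha, rfl⟩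

/-- a total and surjective partial isomorphism is an isomorphism -/
theorem PIso.exists_equiv {Γ : Set (M × A)} (h : PIso L Γ) (ht : ∀ m, ∃ a ∈ Γ, a.1 = m)
    (hs : ∀ b, ∃ a ∈ Γ, a.2 = b) : ∃ e : L.Equiv M A, ∀ a ∈ Γ, e a.1 = a.2 := by
  have h1 : ∀ m, ∃ b, (m, b) ∈ Γ := by
    intro m
    obtain ⟨a, ha, rfl⟩ := ht m
    exact ⟨a.2, ha⟩
  have h2 : ∀ b, ∃ m, (m, b) ∈ Γ := by
    intro b
    obtain ⟨a, ha, rfl⟩ := hs b
    exact ⟨a.1, ha⟩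
  choose f hf using h1
  choose g hg using h2
  refine ⟨⟨⟨f, g, ?_, ?_⟩, fun F => isEmptyElim F, ?_⟩, ?_⟩
  · intro m
    exact (h.inj _ (hg (f m)) _ (hf m)).mpr rfl
  · intro b
    exact (h.inj _ (hf (g b)) _ (hg b)).mp rfl
  · intro n r x
    exact (h.rel n r x (fun i => f (x i)) fun i => hf (x i)).symm
  · intro a ha
    exact (h.inj _ (hf a.1) _ ha).mp rfl

end

end Pool.Agent.H94.HC
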