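import Pool.Agent.H94.HC.BF
import Pool.Agent.H94.HC.Rel

/-!
# The structures, their back-and-forth equivalence, and complete homogeneity
-/

set_option autoImplicit false
set_option linter.unusedSectionVars false

namespace Pool.Agent.H94.HC

open Cardinal FirstOrder FirstOrder.Language

/-- relation symbols -/
inductive HRel : ℕ → Type
  | q : HRel 1
  | y : HRel 1
  | v (n : ℕ) : HRel 1
  | E (k : ℕ) : HRel 2
  | R : HRel 2
  | pi : HRel 2
  | e : HRel 3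

/-- the language -/
def HL : FirstOrder.Language.{0, 0} := ⟨fun _ => Empty, HRel⟩

instance : HL.IsRelational := fun _ => inferInstanceAs (IsEmpty Empty)

/-- the domain: colours, functions, classes -/
def Dom (V Q : Type) [Infinite V] (_hQ : #Q ≤ #V) : Type := V ⊕ (Y V Q ⊕ Q)

section

variable {V V' Q Q' : Type} [VStr V] [VStr V'] [Infinite V] [Infinite V']
variable {hQ : #Q ≤ #V} {hQ' : #Q' ≤ #V'} {Γ : Set (Q × Q')}

/-- the relations -/
def relMap (hQ : #Q ≤ #V) : ∀ {n : ℕ}, HRel n → (Fin n → Dom V Q hQ) → Prop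
  | _, .q, x => ∃ q : Q, x 0 = Sum.inr (Sum.inr q)
  | _, .y, x => ∃ y : Y V Q, x 0 = Sum.inr (Sum.inl y)
  | _, .v n, x => ∃ u : V, x 0 = Sum.inl u ∧ rank u = n
  | _, .E k, x => ∃ u v : V, x 0 = Sum.inl u ∧ x 1 = Sum.inl v ∧ E k u v
  | _, .R, x => ∃ u v : V, x 0 = Sum.inl u ∧ x 1 = Sum.inl v ∧ R u v
  | _, .pi, x => ∃ y : Y V Q, x 0 = Sum.inr (Sum.inl y) ∧ x 1 = Sum.inr (Sum.inr (cls y))
  | _, .e, x => ∃ y z : Y V Q, x 0 = Sum.inr (Sum.inl y) ∧ x 1 = Sum.inr (Sum.inl z) ∧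
      x 2 = Sum.inl (ec hQ y z)

instance : HL.Structure (Dom V Q hQ) where
  funMap := fun f => Empty.elim f
  RelMap := fun r x => relMap hQ r x

/-- the graph of a triple -/
def gr (p : Tri V V' Q Q') : Dom V Q hQ → Dom V' Q' hQ' → Prop
  | Sum.inl u, Sum.inl u' => (u, u') ∈ p.v
  | Sum.inr (Sum.inl y), Sum.inr (Sum.inl y') => (y, y') ∈ p.y
  | Sum.inr (Sum.inr q), Sum.inr (Sum.inr q') => (q, q') ∈ p.q
  | _, _ => False

lemma gr_v {p : Tri V V' Q Q'} {u : V} {x' : Dom V' Q' hQ'} :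
    gr (hQ := hQ) p (Sum.inl u) x' ↔ ∃ u' : V', x' = Sum.inl u' ∧ (u, u') ∈ p.v := by
  rcases x' with u' | y' | q'
  · constructor
    · exact fun h => ⟨u', rfl, h⟩
    · rintro ⟨w, hw, h⟩
      rw [Sum.inl.inj hw]; exact h
  · exact ⟨fun h => h.elim, fun ⟨w, hw, _⟩ => by cases hw⟩
  · exact ⟨fun h => h.elim, fun ⟨w, hw, _⟩ => by cases hw⟩

lemma gr_y {p : Tri V V' Q Q'} {y : Y V Q} {x' : Dom V' Q' hQ'} :
    gr (hQ := hQ) p (Sum.inr (Sum.inl y)) x' ↔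
      ∃ y' : Y V' Q', x' = Sum.inr (Sum.inl y') ∧ (y, y') ∈ p.y := by
  rcases x' with u' | y' | q'
  · exact ⟨fun h => h.elim, fun ⟨w, hw, _⟩ => by cases hw⟩
  · constructor
    · exact fun h => ⟨y', rfl, h⟩
    · rintro ⟨w, hw, h⟩
      rw [Sum.inl.inj (Sum.inr.inj hw)]; exact h
  · exact ⟨fun h => h.elim, fun ⟨w, hw, _⟩ => by cases hw⟩

lemma gr_q {p : Tri V V' Q Q'} {q : Q} {x' : Dom V' Q' hQ'} :
    gr (hQ := hQ) p (Sum.inr (Sum.inr q)) x' ↔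
      ∃ q' : Q', x' = Sum.inr (Sum.inr q') ∧ (q, q') ∈ p.q := by
  rcases x' with u' | y' | q'
  · exact ⟨fun h => h.elim, fun ⟨w, hw, _⟩ => by cases hw⟩
  · exact ⟨fun h => h.elim, fun ⟨w, hw, _⟩ => by cases hw⟩
  · constructor
    · exact fun h => ⟨q', rfl, h⟩
    · rintro ⟨w, hw, h⟩
      rw [Sum.inr.inj (Sum.inr.inj hw)]; exact h

lemma gr_swap {p : Tri V V' Q Q'} {x : Dom V Q hQ} {x' : Dom V' Q' hQ'} :
    gr p x x' ↔ gr p.swap x' x := by
  rcases x with u | y | q <;> rcases x' with u' | y' | q' <;> exact Iff.rfl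

lemma gr_mono {p p' : Tri V V' Q Q'} (hp : p.Le p') {x : Dom V Q hQ} {x' : Dom V' Q' hQ'}
    (h : gr p x x') : gr p' x x' := by
  rcases x with u | y | q <;> rcases x' with u' | y' | q'
  · exact hp.1 h
  · exact h.elim
  · exact h.elim
  · exact h.elim
  · exact hp.2.1 h
  · exact h.elim
  · exact h.elim
  · exact h.elim
  · exact hp.2.2 h

lemma PI.gr_inj {p : Tri V V' Q Q'} (h : PI hQ hQ' Γ p) {x y : Dom V Q hQ} {x' y' : Dom V' Q' hQ'}
    (hx : gr p x x') (hy : gr p y y') (hxy : x = y) : x' = y' := by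
  subst hxy
  rcases x with u | z | q
  · obtain ⟨a, rfl, ha⟩ := gr_v.mp hx
    obtain ⟨b, rfl, hb⟩ := gr_v.mp hy
    have e : a = b := ((h.pv _ ha _ hb).1).mp rfl
    rw [e]
  · obtain ⟨a, rfl, ha⟩ := gr_y.mp hx
    obtain ⟨b, rfl, hb⟩ := gr_y.mp hy
    have e : a = b := (h.injY _ ha _ hb).mp rfl
    rw [e]
  · obtain ⟨a, rfl, ha⟩ := gr_q.mp hx
    obtain ⟨b, rfl, hb⟩ := gr_q.mp hy
    have e : a = b := (h.injQ _ ha _ hb).mp rfl
    rw [e]

lemma PI.rel_fwd {p : Tri V V' Q Q'} (h : PI hQ hQ' Γ p) {n : ℕ} (r : HRel n)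
    {x : Fin n → Dom V Q hQ} {x' : Fin n → Dom V' Q' hQ'} (hx : ∀ i, gr p (x i) (x' i))
    (hr : relMap hQ r x) : relMap hQ' r x' := by
  cases r with
  | q =>
    obtain ⟨q, h0⟩ := hr
    have h1 := hx 0
    rw [h0] at h1
    obtain ⟨q', h1, _⟩ := gr_q.mp h1
    exact ⟨q', h1⟩
  | y =>
    obtain ⟨q, h0⟩ := hr
    have h1 := hx 0
    rw [h0] at h1
    obtain ⟨q', h1, _⟩ := gr_y.mp h1
    exact ⟨q', h1⟩
  | v n =>
    obtain ⟨u, h0, hn⟩ := hr
    have h1 := hx 0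
    rw [h0] at h1
    obtain ⟨u', h1, h2⟩ := gr_v.mp h1
    exact ⟨u', h1, by rw [← hn]; exact ((h.pv _ h2 _ h2).2.1).symm⟩
  | E k =>
    obtain ⟨u, v, h0, h0', hE⟩ := hr
    have h1 := hx 0
    have h2 := hx 1
    rw [h0] at h1
    rw [h0'] at h2
    obtain ⟨u', h1, h3⟩ := gr_v.mp h1
    obtain ⟨v', h2, h4⟩ := gr_v.mp h2
    exact ⟨u', v', h1, h2, ((h.pv _ h3 _ h4).2.2.1 k).mp hE⟩
  | R =>
    obtain ⟨u, v, h0, h0', hE⟩ := hr
    have h1 := hx 0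
    have h2 := hx 1
    rw [h0] at h1
    rw [h0'] at h2
    obtain ⟨u', h1, h3⟩ := gr_v.mp h1
    obtain ⟨v', h2, h4⟩ := gr_v.mp h2
    exact ⟨u', v', h1, h2, ((h.pv _ h3 _ h4).2.2.2).mp hE⟩
  | pi =>
    obtain ⟨y, h0, h0'⟩ := hr
    have h1 := hx 0
    have h2 := hx 1
    rw [h0] at h1
    rw [h0'] at h2
    obtain ⟨y', h1, h3⟩ := gr_y.mp h1
    obtain ⟨q', h2, h4⟩ := gr_q.mp h2
    refine ⟨y', h1, ?_⟩
    have e : q' = cls y' := (h.injQ _ h4 _ (h.cl _ h3)).mp rfl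
    rw [h2, e]
  | e =>
    obtain ⟨y, z, h0, h0', h0''⟩ := hr
    have h1 := hx 0
    have h2 := hx 1
    have h3 := hx 2
    rw [h0] at h1
    rw [h0'] at h2
    rw [h0''] at h3
    obtain ⟨y', h1, h4⟩ := gr_y.mp h1
    obtain ⟨z', h2, h5⟩ := gr_y.mp h2
    obtain ⟨u', h3, h6⟩ := gr_v.mp h3
    refine ⟨y', z', h1, h2, ?_⟩
    have e : u' = ec hQ' y' z' := ((h.pv _ h6 _ (h.col _ h4 _ h5)).1).mp rfl
    rw [h3, e]

/-- the graph of a triple as a set -/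
def grS (p : Tri V V' Q Q') : Set (Dom V Q hQ × Dom V' Q' hQ') := {a | gr p a.1 a.2}

theorem PI.piso {p : Tri V V' Q Q'} (h : PI hQ hQ' Γ p) :
    PIso HL (grS p : Set (Dom V Q hQ × Dom V' Q' hQ')) where
  inj := fun _ ha _ hb => ⟨fun hab => h.gr_inj ha hb hab,
    fun hab => h.swap.gr_inj (gr_swap.mp ha) (gr_swap.mp hb) hab⟩
  rel := fun _ r _ _ hxy => ⟨fun hr => h.rel_fwd r hxy hr,
    fun hr => h.swap.rel_fwd r (fun i => gr_swap.mp (hxy i)) hr⟩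

lemma PI.finite {p : Tri V V' Q Q'} (h : PI hQ hQ' Γ p) :
    (grS p : Set (Dom V Q hQ × Dom V' Q' hQ')).Finite := by
  have h1 : (grS p : Set (Dom V Q hQ × Dom V' Q' hQ')) ⊆
      ((fun a : V × V' => ((Sum.inl a.1 : Dom V Q hQ), (Sum.inl a.2 : Dom V' Q' hQ'))) '' p.v) ∪
      (((fun a : Y V Q × Y V' Q' => ((Sum.inr (Sum.inl a.1) : Dom V Q hQ),
        (Sum.inr (Sum.inl a.2) : Dom V' Q' hQ'))) '' p.y) ∪
      ((fun a : Q × Q' => ((Sum.inr (Sum.inr a.1) : Dom V Q hQ),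
        (Sum.inr (Sum.inr a.2) : Dom V' Q' hQ'))) '' p.q)) := by
    rintro ⟨x, x'⟩ hx
    have hx' : gr p x x' := hx
    rcases x with u | y | q
    · obtain ⟨u', rfl, h1⟩ := gr_v.mp hx'
      exact Or.inl ⟨(u, u'), h1, rfl⟩
    · obtain ⟨u', rfl, h1⟩ := gr_y.mp hx'
      exact Or.inr (Or.inl ⟨(y, u'), h1, rfl⟩)
    · obtain ⟨u', rfl, h1⟩ := gr_q.mp hx'
      exact Or.inr (Or.inr ⟨(q, u'), h1, rfl⟩)
  exact ((h.finV.image _).union ((h.finY.image _).union (h.finQ.image _))).subset h1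

theorem PI.ext [Good V] [Good V'] (hΓ : ExtQ Γ) {p : Tri V V' Q Q'} (h : PI hQ hQ' Γ p)
    (x : Dom V Q hQ) : ∃ p', PI hQ hQ' Γ p' ∧ p.Le p' ∧ ∃ x' : Dom V' Q' hQ', gr p' x x' := by
  rcases x with u | y | q
  · obtain ⟨p', h', hle, a, ha, rfl⟩ := h.extV u
    exact ⟨p', h', hle, Sum.inl a.2, ha⟩
  · obtain ⟨p', h', hle, a, ha, rfl⟩ := PI.extY hΓ y h
    exact ⟨p', h', hle, Sum.inr (Sum.inl a.2), ha⟩
  · obtain ⟨p', h', hle, _, _, a, ha, rfl⟩ := h.extQ hΓ q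
    exact ⟨p', h', hle, Sum.inr (Sum.inr a.2), ha⟩

theorem PI.ext' [Good V] [Good V'] (hΓ : ExtQ (Prod.swap ⁻¹' Γ : Set (Q' × Q)))
    {p : Tri V V' Q Q'} (h : PI hQ hQ' Γ p)
    (x' : Dom V' Q' hQ') : ∃ p', PI hQ hQ' Γ p' ∧ p.Le p' ∧ ∃ x : Dom V Q hQ, gr p' x x' := by
  obtain ⟨p', h', hle, x, hx⟩ := h.swap.ext hΓ x'
  refine ⟨p'.swap, h'.swap, ?_, x, gr_swap.mp hx⟩
  have := hle.swap
  rwa [Tri.swap_swap] at this

/-- the empty triple -/
lemma PI.empty : PI hQ hQ' Γ (⟨∅, ∅, ∅⟩ : Tri V V' Q Q') where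
  finV := Set.finite_empty
  finY := Set.finite_empty
  finQ := Set.finite_empty
  pv := fun a ha => absurd ha (Set.notMem_empty a)
  injY := fun a ha => absurd ha (Set.notMem_empty a)
  injQ := fun a ha => absurd ha (Set.notMem_empty a)
  gam := Set.empty_subset _
  col := fun a ha => absurd ha (Set.notMem_empty a)
  cl := fun a ha => absurd ha (Set.notMem_empty a)
  kid1 := fun a ha => absurd ha (Set.notMem_empty a)
  kid2 := fun a ha => absurd ha (Set.notMem_empty a)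

/-- back-and-forth equivalence of the structures -/
theorem bfc [Good V] [Good V'] [Infinite Q] [Infinite Q'] (hQ : #Q ≤ #V) (hQ' : #Q' ≤ #V') :
    BFc HL (Dom V Q hQ) (Dom V' Q' hQ') := by
  have hext : ∀ {A B : Type} [Infinite B], ExtQ (Set.univ : Set (A × B)) := by
    intro A B _ p hp hinj _ q
    by_cases hq : ∃ a ∈ p, a.1 = q
    · obtain ⟨a, ha, rfl⟩ := hq
      refine ⟨a.2, trivial, ?_⟩
      rw [Set.insert_eq_of_mem (show (a.1, a.2) ∈ p from ha)]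
      exact hinj
    · push Not at hq
      obtain ⟨b, hb⟩ := (hp.image Prod.snd).infinite_compl.nonempty
      refine ⟨b, trivial, ?_⟩
      have hb' : ∀ a ∈ p, a.2 ≠ b := fun a ha hab => hb ⟨a, ha, hab⟩
      intro c hc d hd
      rcases Set.mem_insert_iff.mp hc with rfl | hc <;> rcases Set.mem_insert_iff.mp hd with rfl | hd
      · simp
      · exact iff_of_false (hq d hd).symm (hb' d hd).symm
      · exact iff_of_false (hq c hc) (hb' c hc)
      · exact hinj c hc d hd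
  refine bfc_of_system {G | ∃ p : Tri V V' Q Q', PI hQ hQ' Set.univ p ∧ G = grS p} ?_ ?_ ?_ ?_ ?_
  · exact ⟨_, _, PI.empty, rfl⟩
  · rintro G ⟨p, h, rfl⟩
    exact h.piso
  · rintro G ⟨p, h, rfl⟩
    exact h.finite
  · rintro G ⟨p, h, rfl⟩ x
    obtain ⟨p', h', hle, x', hx'⟩ := h.ext hext x
    exact ⟨_, ⟨p', h', rfl⟩, fun a ha => gr_mono hle ha, (x, x'), hx', rfl⟩
  · rintro G ⟨p, h, rfl⟩ x'
    obtain ⟨p', h', hle, x, hx⟩ := h.ext' (by rw [Set.preimage_univ]; exact hext) x'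
    exact ⟨_, ⟨p', h', rfl⟩, fun a ha => gr_mono hle ha, (x, x'), hx, rfl⟩

/-- complete homogeneity of the classes of a countable structure -/
theorem homog [Good V] [Countable V] [Countable Q] (hQ : #Q ≤ #V) (σ : _root_.Equiv.Perm Q) :
    ∃ e : HL.Equiv (Dom V Q hQ) (Dom V Q hQ), ∀ q : Q,
      e (Sum.inr (Sum.inr q)) = (Sum.inr (Sum.inr (σ q)) : Dom V Q hQ) := by
  classical
  let Γ : Set (Q × Q) := {a | a.2 = σ a.1}
  have hext : ∀ τ : _root_.Equiv.Perm Q, ExtQ {a : Q × Q | a.2 = τ a.1} := by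
    intro τ p hp hinj hsub q
    refine ⟨τ q, rfl, ?_⟩
    intro c hc d hd
    have hc' : c.2 = τ c.1 := by
      rcases Set.mem_insert_iff.mp hc with rfl | hc
      · rfl
      · exact hsub hc
    have hd' : d.2 = τ d.1 := by
      rcases Set.mem_insert_iff.mp hd with rfl | hd
      · rfl
      · exact hsub hd
    rw [hc', hd', τ.injective.eq_iff]
  have hext1 : ExtQ Γ := hext σ
  have hext2 : ExtQ (Prod.swap ⁻¹' Γ : Set (Q × Q)) := by
    have : (Prod.swap ⁻¹' Γ : Set (Q × Q)) = {a : Q × Q | a.2 = σ.symm a.1} := by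
      ext a
      show a.1 = σ a.2 ↔ a.2 = σ.symm a.1
      rw [_root_.Equiv.eq_symm_apply, eq_comm]
    rw [this]
    exact hext σ.symm
  let PP := {p : Tri V V Q Q // PI hQ hQ Γ p}
  let _ : Preorder PP :=
    { le := fun a b => a.1.Le b.1
      le_refl := fun a => Tri.Le.refl a.1
      le_trans := fun a b c h h' => h.trans h' }
  have hcount : Countable (Dom V Q hQ) := by
    have h1 : Countable (Y V Q) := by
      rw [← Cardinal.mk_le_aleph0_iff]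
      exact (mk_Y_le hQ).trans (Cardinal.mk_le_aleph0_iff.mpr inferInstance)
    exact inferInstanceAs (Countable (V ⊕ (Y V Q ⊕ Q)))
  let _ : Encodable (Dom V Q hQ ⊕ Dom V Q hQ) := Encodable.ofCountable _
  let D : Dom V Q hQ ⊕ Dom V Q hQ → Order.Cofinal PP := fun x =>
    match x with
    | Sum.inl x => ⟨{p | ∃ x', gr p.1 x x'}, by
        intro p
        obtain ⟨p', h', hle, hx⟩ := p.2.ext hext1 x
        exact ⟨⟨p', h'⟩, hx, hle⟩⟩
    | Sum.inr x' => ⟨{p | ∃ x, gr p.1 x x'}, by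
        intro p
        obtain ⟨p', h', hle, hx⟩ := p.2.ext' hext2 x'
        exact ⟨⟨p', h'⟩, hx, hle⟩⟩
  let s : ℕ → PP := Order.sequenceOfCofinals ⟨⟨∅, ∅, ∅⟩, PI.empty⟩ D
  have hs : Monotone s := Order.sequenceOfCofinals.monotone _ _
  let G : Set (Dom V Q hQ × Dom V Q hQ) := {a | ∃ n, gr (s n).1 a.1 a.2}
  have hG : PIso HL G := by
    constructor
    · rintro a ⟨m, ha⟩ b ⟨n, hb⟩
      have ha' := gr_mono (hs (le_max_left m n)) ha
      have hb' := gr_mono (hs (le_max_right m n)) hb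
      exact ((s (max m n)).2.piso).inj a ha' b hb'
    · intro n r x y hxy
      choose m hm using hxy
      obtain ⟨N, hN⟩ : ∃ N, ∀ i, m i ≤ N := by
        refine ⟨Finset.univ.sup m, fun i => Finset.le_sup (Finset.mem_univ i)⟩
      exact ((s N).2.piso).rel n r x y fun i => gr_mono (hs (hN i)) (hm i)
  have ht : ∀ x, ∃ a ∈ G, a.1 = x := by
    intro x
    obtain ⟨x', hx'⟩ := Order.sequenceOfCofinals.encode_mem (⟨⟨∅, ∅, ∅⟩, PI.empty⟩ : PP) D (Sum.inl x)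
    exact ⟨(x, x'), ⟨_, hx'⟩, rfl⟩
  have ht' : ∀ x, ∃ a ∈ G, a.2 = x := by
    intro x'
    obtain ⟨x, hx⟩ := Order.sequenceOfCofinals.encode_mem (⟨⟨∅, ∅, ∅⟩, PI.empty⟩ : PP) D (Sum.inr x')
    exact ⟨(x, x'), ⟨_, hx⟩, rfl⟩
  obtain ⟨e, he⟩ := hG.exists_equiv ht ht'
  refine ⟨e, fun q => ?_⟩
  obtain ⟨a, ⟨n, ha⟩, ha1⟩ := ht (Sum.inr (Sum.inr q))
  have h1 := he a ⟨n, ha⟩
  rw [ha1] at h1 ha
  obtain ⟨q', hq1, hq2⟩ := gr_q.mp ha
  have h2 : q' = σ q := (s n).2.gam hq2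
  rw [h1, hq1, h2]

end

end Pool.Agent.H94.HC
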