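import Pool.Agent.H94.HC.Defs

/-!
# The sort of functions: an inductive type of finite prescriptions
-/

set_option autoImplicit false

namespace Pool.Agent.H94.HC

open Cardinal

/-- data of an element: number of children, colours `e (child, self)`, colours `e (self, child)`,
colour `e (self, self)`, class -/
abbrev Dat (V Q : Type) : Type := Σ n : ℕ, (Fin n → V) × (Fin n → V) × V × Q

/-- number of children -/
abbrev Bch (V Q : Type) (a : Dat V Q) : Type := Fin a.1

/-- the sort of functions -/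
abbrev Y (V Q : Type) : Type := WType (Bch V Q)

section

variable {V Q : Type}

/-- class of an element -/
def cls (y : Y V Q) : Q := y.toSigma.1.2.2.2.2

/-- children of an element -/
def kids (y : Y V Q) : Set (Y V Q) := Set.range y.toSigma.2

lemma kids_finite (y : Y V Q) : (kids y).Finite := Set.finite_range _

open Classical in
/-- prescribed colour `e (x, y)` for a child `x` of `y` -/
noncomputable def gc (y x : Y V Q) : V :=
  if h : ∃ i, y.toSigma.2 i = x then y.toSigma.1.2.1 h.choose else y.toSigma.1.2.2.2.1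

open Classical in
/-- prescribed colour `e (y, x)` for a child `x` of `y` -/
noncomputable def hc (y x : Y V Q) : V :=
  if h : ∃ i, y.toSigma.2 i = x then y.toSigma.1.2.2.1 h.choose else y.toSigma.1.2.2.2.1

lemma mk_aleph0_le_Y [Nonempty V] [Nonempty Q] : ℵ₀ ≤ #(Y V Q) := by
  rw [Cardinal.aleph0_le_mk_iff]
  obtain ⟨v⟩ := ‹Nonempty V›
  obtain ⟨q⟩ := ‹Nonempty Q›
  let f : ℕ → Y V Q := fun n => Nat.rec (WType.mk ⟨0, Fin.elim0, Fin.elim0, v, q⟩ Fin.elim0)
    (fun _ y => WType.mk ⟨1, fun _ => v, fun _ => v, v, q⟩ fun _ => y) n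
  have hf : ∀ n, (f n).depth < (f (n + 1)).depth := by
    intro n
    exact WType.depth_lt_depth_mk (β := Bch V Q) ⟨1, fun _ => v, fun _ => v, v, q⟩ (fun _ => f n) 0
  have hm : StrictMono fun n => (f n).depth := strictMono_nat_of_lt_succ hf
  exact Infinite.of_injective f fun a b h => hm.injective (congrArg WType.depth h)

lemma mk_Y_le [Infinite V] (hQ : #Q ≤ #V) : #(Y V Q) ≤ #V := by
  have h1 : #(Y V Q) ≤ max #(Dat V Q) ℵ₀ := WType.cardinalMk_le_max_aleph0_of_finite
  have h2 : #(Dat V Q) ≤ #V := by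
    have h3 : #(Dat V Q) ≤ #(List V × List V × V × Q) := by
      refine Cardinal.mk_le_of_injective
        (f := fun a : Dat V Q => (List.ofFn a.2.1, List.ofFn a.2.2.1, a.2.2.2.1, a.2.2.2.2)) ?_
      rintro ⟨n, g, h, v, q⟩ ⟨n', g', h', v', q'⟩ hab
      simp only [Prod.mk.injEq] at hab
      obtain ⟨e1, e2, rfl, rfl⟩ := hab
      have hn : n = n' := by
        have := congrArg List.length e1
        simpa using this
      subst hn
      rw [List.ofFn_inj] at e1 e2
      subst e1 e2
      rfl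
    refine h3.trans ?_
    have hV : ℵ₀ ≤ #V := Cardinal.aleph0_le_mk V
    simp only [Cardinal.mk_prod, Cardinal.lift_id, Cardinal.mk_list_eq_mk]
    rw [← mul_assoc, ← mul_assoc, Cardinal.mul_eq_self hV, Cardinal.mul_eq_self hV]
    exact Cardinal.mul_le_of_le hV le_rfl hQ
  exact h1.trans (max_le h2 (Cardinal.aleph0_le_mk V))

lemma not_kid_self (y : Y V Q) : y ∉ kids y := by
  rintro ⟨i, hi⟩
  have h1 : y = WType.mk y.toSigma.1 y.toSigma.2 := by
    cases y; rfl
  have h2 := WType.depth_lt_depth_mk (β := Bch V Q) y.toSigma.1 y.toSigma.2 i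
  rw [← h1, hi] at h2
  exact lt_irrefl _ h2

lemma depth_kid {x y : Y V Q} (h : x ∈ kids y) : x.depth < y.depth := by
  obtain ⟨i, rfl⟩ := h
  have h1 : y = WType.mk y.toSigma.1 y.toSigma.2 := by
    cases y; rfl
  conv_rhs => rw [h1]
  exact WType.depth_lt_depth_mk (β := Bch V Q) y.toSigma.1 y.toSigma.2 i

/-- induction -/
lemma kid_induction {P : Y V Q → Prop} (h : ∀ y, (∀ x ∈ kids y, P x) → P y) (y : Y V Q) : P y := by
  induction y with
  | mk a f ih =>
    refine h _ ?_
    rintro x ⟨i, rfl⟩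
    exact ih i

/-- is the prescription of the colours `e (y, ·)` injective? -/
def Valid (y : Y V Q) : Prop := Set.InjOn (hc y) (kids y)

lemma exists_nu [Infinite V] (hQ : #Q ≤ #V) (z : Y V Q) : ∃ ν : Y V Q → V, Function.Injective ν ∧
    ∀ x, ∀ w ∈ kids z, ν x ≠ hc z w := by
  have hfin : (hc z '' kids z).Finite := (kids_finite z).image _
  have h1 : #((hc z '' kids z)ᶜ : Set V) = #V := Cardinal.mk_compl_of_infinite _
    (hfin.lt_aleph0.trans_le (Cardinal.aleph0_le_mk V))
  have h2 : #(Y V Q) ≤ #((hc z '' kids z)ᶜ : Set V) := by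
    rw [h1]; exact mk_Y_le hQ
  obtain ⟨f⟩ := Cardinal.le_def _ _ |>.mp h2
  refine ⟨fun x => (f x : V), fun x y hxy => f.injective (Subtype.ext hxy), ?_⟩
  intro x w hw heq
  exact (f x).2 ⟨w, hw, heq.symm⟩

/-- free colours -/
noncomputable def nu [Infinite V] (hQ : #Q ≤ #V) (z : Y V Q) : Y V Q → V := (exists_nu hQ z).choose

lemma nu_inj [Infinite V] (hQ : #Q ≤ #V) (z : Y V Q) : Function.Injective (nu hQ z) :=
  (exists_nu hQ z).choose_spec.1

lemma nu_ne [Infinite V] (hQ : #Q ≤ #V) (z x : Y V Q) {w : Y V Q} (hw : w ∈ kids z) :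
    nu hQ z x ≠ hc z w := (exists_nu hQ z).choose_spec.2 x w hw

open Classical in
/-- the colouring -/
noncomputable def ec [Infinite V] (hQ : #Q ≤ #V) (z x : Y V Q) : V :=
  if z = x then z.toSigma.1.2.2.2.1
  else if z ∈ kids x then gc x z
  else if x ∈ kids z ∧ Valid z then hc z x
  else nu hQ z x

/-- agreements are children -/
theorem ec_ne [Infinite V] (hQ : #Q ≤ #V) {x y z : Y V Q} (hxy : x ≠ y) (hzx : z ≠ x) (hzy : z ≠ y)
    (h1 : z ∉ kids x) (h2 : z ∉ kids y) : ec hQ z x ≠ ec hQ z y := by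
  unfold ec
  rw [if_neg hzx, if_neg hzy, if_neg h1, if_neg h2]
  by_cases c1 : x ∈ kids z ∧ Valid z <;> by_cases c2 : y ∈ kids z ∧ Valid z
  · rw [if_pos c1, if_pos c2]
    exact fun h => hxy (c1.2 c1.1 c2.1 h)
  · rw [if_pos c1, if_neg c2]
    exact (nu_ne hQ z y c1.1).symm
  · rw [if_neg c1, if_pos c2]
    exact nu_ne hQ z x c2.1
  · rw [if_neg c1, if_neg c2]
    exact fun h => hxy (nu_inj hQ z h)

/-- realisation of prescriptions -/
theorem exists_mk [Infinite V] (hQ : #Q ≤ #V) (F : Set (Y V Q)) (hF : F.Finite) (g h : Y V Q → V)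
    (hh : Set.InjOn h F) (v : V) (q : Q) : ∃ c : Y V Q, kids c = F ∧ c ∉ F ∧ cls c = q ∧
      ec hQ c c = v ∧ ∀ z ∈ F, ec hQ z c = g z ∧ ec hQ c z = h z := by
  classical
  obtain ⟨n, f, hf, hr⟩ : ∃ (n : ℕ) (f : Fin n → Y V Q), Function.Injective f ∧ Set.range f = F := by
    have e := hF.toFinset.equivFin
    refine ⟨hF.toFinset.card, fun i => (e.symm i : Y V Q), fun i j hij =>
      e.symm.injective (Subtype.ext hij), ?_⟩
    ext x
    constructor
    · rintro ⟨i, rfl⟩
      exact hF.mem_toFinset.mp (e.symm i).2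
    · intro hx
      exact ⟨e ⟨x, hF.mem_toFinset.mpr hx⟩, by simp⟩
  set c : Y V Q := WType.mk ⟨n, fun i => g (f i), fun i => h (f i), v, q⟩ f with hc'
  have hk : kids c = F := hr
  have hcF : c ∉ F := by rw [← hk]; exact not_kid_self c
  have hsel : ∀ z ∈ F, ∀ hex : ∃ i, c.toSigma.2 i = z, f hex.choose = z :=
    fun z _ hex => hex.choose_spec
  have hhc : ∀ z ∈ F, hc c z = h z := by
    intro z hz
    rw [← hr] at hz
    have hex : ∃ i, c.toSigma.2 i = z := hz
    unfold hc
    rw [dif_pos hex]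
    show h (f hex.choose) = h z
    rw [show f hex.choose = z from hex.choose_spec]
  have hgc : ∀ z ∈ F, gc c z = g z := by
    intro z hz
    rw [← hr] at hz
    have hex : ∃ i, c.toSigma.2 i = z := hz
    unfold gc
    rw [dif_pos hex]
    show g (f hex.choose) = g z
    rw [show f hex.choose = z from hex.choose_spec]
  have hval : Valid c := by
    intro x hx y hy hxy
    rw [hk] at hx hy
    rw [hhc x hx, hhc y hy] at hxy
    exact hh hx hy hxy
  refine ⟨c, hk, hcF, rfl, ?_, ?_⟩
  · unfold ec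
    rw [if_pos rfl]
    rfl
  · intro z hz
    have hzc : z ≠ c := fun h' => hcF (h' ▸ hz)
    constructor
    · unfold ec
      rw [if_neg hzc, if_pos (by rw [hk]; exact hz), hgc z hz]
    · have h1 : c ∉ kids z := by
        intro h'
        have h2 := depth_kid h'
        have h3 := depth_kid (x := z) (y := c) (by rw [hk]; exact hz)
        omega
      unfold ec
      rw [if_neg hzc.symm, if_neg h1, if_pos ⟨by rw [hk]; exact hz, hval⟩, hhc z hz]

end

end Pool.Agent.H94.HC
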