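import Pool.Agent.H94.HC.Struct

/-!
# The upper bound for the cardinality
-/

set_option autoImplicit false
set_option linter.unusedSectionVars false

namespace Pool.Agent.H94.HC

open Cardinal FirstOrder FirstOrder.Language

/-! ### systems -/

section

variable {L : FirstOrder.Language.{0, 0}} [L.IsRelational] {M A : Type} [L.Structure M]
  [L.Structure A]

/-- the graph of a partial equivalence -/
def graphPE (f : L.PartialEquiv M A) : Set (M × A) :=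
  {a | ∃ h : a.1 ∈ f.dom, (f.toEquiv ⟨a.1, h⟩ : A) = a.2}

lemma graphPE_piso (f : L.PartialEquiv M A) : PIso L (graphPE f) where
  inj := by
    rintro ⟨a1, a2⟩ ⟨ha, ha'⟩ ⟨b1, b2⟩ ⟨hb, hb'⟩
    dsimp only at *
    constructor
    · rintro rfl
      rw [← ha', ← hb']
    · intro h
      rw [← ha', ← hb'] at h
      have h1 := f.toEquiv.injective (Subtype.ext h)
      exact congrArg Subtype.val h1
  rel := by
    intro n r x y hxy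
    choose h1 h2 using hxy
    have e1 : y = fun i => (f.toEquiv ⟨x i, h1 i⟩ : A) := funext fun i => (h2 i).symm
    rw [e1]
    exact (f.toEquiv.map_rel r (fun i => ⟨x i, h1 i⟩)).symm

lemma graphPE_mono {f g : L.PartialEquiv M A} (h : f ≤ g) : graphPE f ⊆ graphPE g := by
  rintro ⟨a, b⟩ ⟨ha, hb⟩
  obtain ⟨h1, h2, h3⟩ := FirstOrder.Language.PartialEquiv.le_iff.mp h
  refine ⟨h1 ha, ?_⟩
  have h4 := congrArg Subtype.val (h3 ⟨a, ha⟩)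
  exact h4.symm.trans hb

/-- back-and-forth systems of sets of pairs -/
structure Sys (L : FirstOrder.Language.{0, 0}) {M A : Type} [L.Structure M] [L.Structure A]
    (𝒮 : Set (Set (M × A))) : Prop where
  ne : 𝒮.Nonempty
  iso : ∀ Γ ∈ 𝒮, PIso L Γ
  forth : ∀ Γ ∈ 𝒮, ∀ m : M, ∃ Γ' ∈ 𝒮, Γ ⊆ Γ' ∧ ∃ b, (m, b) ∈ Γ'
  back : ∀ Γ ∈ 𝒮, ∀ b : A, ∃ Γ' ∈ 𝒮, Γ ⊆ Γ' ∧ ∃ m, (m, b) ∈ Γ'

lemma exists_sys (h : BFc L M A) : ∃ 𝒮 : Set (Set (M × A)), Sys L 𝒮 := by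
  obtain ⟨S, hne, _, hf, hb⟩ := h
  refine ⟨graphPE '' S, hne.image _, ?_, ?_, ?_⟩
  · rintro Γ ⟨f, _, rfl⟩
    exact graphPE_piso f
  · rintro Γ ⟨f, hfS, rfl⟩ m
    obtain ⟨g, hg, hle, hm⟩ := hf f hfS m
    exact ⟨_, ⟨g, hg, rfl⟩, graphPE_mono hle, (g.toEquiv ⟨m, hm⟩ : A), hm, rfl⟩
  · rintro Γ ⟨f, hfS, rfl⟩ b
    obtain ⟨g, hg, hle, hb'⟩ := hb f hfS b
    refine ⟨_, ⟨g, hg, rfl⟩, graphPE_mono hle, (g.toEquiv.symm ⟨b, hb'⟩ : M), ?_⟩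
    refine ⟨(g.toEquiv.symm ⟨b, hb'⟩).2, ?_⟩
    show (g.toEquiv (g.toEquiv.symm ⟨b, hb'⟩) : A) = b
    rw [FirstOrder.Language.Equiv.apply_symm_apply]

variable {𝒮 : Set (Set (M × A))} (hS : Sys L 𝒮)
include hS

lemma Sys.back_set {Γ : Set (M × A)} (hΓ : Γ ∈ 𝒮) {B : Set A} (hB : B.Finite) :
    ∃ Γ' ∈ 𝒮, Γ ⊆ Γ' ∧ ∀ b ∈ B, ∃ m, (m, b) ∈ Γ' := by
  induction B, hB using Set.Finite.induction_on with
  | empty => exact ⟨Γ, hΓ, le_rfl, fun b hb => absurd hb (Set.notMem_empty b)⟩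
  | @insert b B _ _ ih =>
    obtain ⟨Γ1, h1, h2, h3⟩ := ih
    obtain ⟨Γ2, h4, h5, m, h6⟩ := hS.back Γ1 h1 b
    refine ⟨Γ2, h4, h2.trans h5, ?_⟩
    intro c hc
    rcases Set.mem_insert_iff.mp hc with rfl | hc
    · exact ⟨m, h6⟩
    · obtain ⟨m', hm'⟩ := h3 c hc
      exact ⟨m', h5 hm'⟩

lemma Sys.back1 (b : A) : ∃ Γ ∈ 𝒮, ∃ m, (m, b) ∈ Γ := by
  obtain ⟨Γ, hΓ⟩ := hS.ne
  obtain ⟨Γ', h1, _, h2⟩ := hS.back Γ hΓ b
  exact ⟨Γ', h1, h2⟩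

lemma Sys.back2 (b c : A) : ∃ Γ ∈ 𝒮, ∃ m n, (m, b) ∈ Γ ∧ (n, c) ∈ Γ := by
  obtain ⟨Γ, h1, m, h2⟩ := hS.back1 b
  obtain ⟨Γ', h3, h4, n, h5⟩ := hS.back Γ h1 c
  exact ⟨Γ', h3, m, n, h4 h2, h5⟩

lemma Sys.back3 (b c d : A) : ∃ Γ ∈ 𝒮, ∃ m n k, (m, b) ∈ Γ ∧ (n, c) ∈ Γ ∧ (k, d) ∈ Γ := by
  obtain ⟨Γ, h1, m, n, h2, h2'⟩ := hS.back2 b c
  obtain ⟨Γ', h3, h4, k, h5⟩ := hS.back Γ h1 d
  exact ⟨Γ', h3, m, n, k, h4 h2, h4 h2', h5⟩

end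

/-! ### relations in an arbitrary structure -/

section

variable {A : Type} [HL.Structure A]

/-- colour of rank `n` -/
def AV (n : ℕ) (a : A) : Prop := Structure.RelMap (L := HL) (HRel.v n) ![a]
/-- function -/
def AY (a : A) : Prop := Structure.RelMap (L := HL) HRel.y ![a]
/-- class -/
def AQ (a : A) : Prop := Structure.RelMap (L := HL) HRel.q ![a]
/-- equivalence -/
def AE (k : ℕ) (a b : A) : Prop := Structure.RelMap (L := HL) (HRel.E k) ![a, b]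
/-- relation -/
def AR (a b : A) : Prop := Structure.RelMap (L := HL) HRel.R ![a, b]
/-- class of a function -/
def AP (a b : A) : Prop := Structure.RelMap (L := HL) HRel.pi ![a, b]
/-- colouring -/
def AC (a b c : A) : Prop := Structure.RelMap (L := HL) HRel.e ![a, b, c]

variable {M : Type} [HL.Structure M] {Γ : Set (M × A)} (h : PIso HL Γ)
include h

lemma PIso.r1 (r : HRel 1) {m : M} {a : A} (ha : (m, a) ∈ Γ) :
    Structure.RelMap (L := HL) r ![m] ↔ Structure.RelMap (L := HL) r ![a] :=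
  h.rel 1 r ![m] ![a] fun i => by
    have : i = 0 := Subsingleton.elim _ _
    subst this
    exact ha

lemma PIso.r2 (r : HRel 2) {m n : M} {a b : A} (ha : (m, a) ∈ Γ) (hb : (n, b) ∈ Γ) :
    Structure.RelMap (L := HL) r ![m, n] ↔ Structure.RelMap (L := HL) r ![a, b] :=
  h.rel 2 r ![m, n] ![a, b] fun i => by
    fin_cases i
    · exact ha
    · exact hb

lemma PIso.r3 (r : HRel 3) {m n k : M} {a b c : A} (ha : (m, a) ∈ Γ) (hb : (n, b) ∈ Γ)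
    (hc : (k, c) ∈ Γ) :
    Structure.RelMap (L := HL) r ![m, n, k] ↔ Structure.RelMap (L := HL) r ![a, b, c] :=
  h.rel 3 r ![m, n, k] ![a, b, c] fun i => by
    fin_cases i
    · exact ha
    · exact hb
    · exact hc

end

section

variable {V Q : Type} [VStr V] [Infinite V] [Good V] {hQ : #Q ≤ #V}

lemma aV_iff {n : ℕ} {a : Dom V Q hQ} : AV n a ↔ ∃ u : V, a = Sum.inl u ∧ rank u = n := Iff.rfl
lemma aY_iff {a : Dom V Q hQ} : AY a ↔ ∃ y : Y V Q, a = Sum.inr (Sum.inl y) := Iff.rfl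
lemma aQ_iff {a : Dom V Q hQ} : AQ a ↔ ∃ q : Q, a = Sum.inr (Sum.inr q) := Iff.rfl
lemma aE_iff {k : ℕ} {a b : Dom V Q hQ} : AE k a b ↔ ∃ u v : V, a = Sum.inl u ∧ b = Sum.inl v ∧
    E k u v := Iff.rfl
lemma aR_iff {a b : Dom V Q hQ} : AR a b ↔ ∃ u v : V, a = Sum.inl u ∧ b = Sum.inl v ∧
    R u v := Iff.rfl
lemma aP_iff {a b : Dom V Q hQ} : AP a b ↔ ∃ y : Y V Q, a = Sum.inr (Sum.inl y) ∧
    b = Sum.inr (Sum.inr (cls y)) := Iff.rfl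
lemma aC_iff {a b c : Dom V Q hQ} : AC a b c ↔ ∃ y z : Y V Q, a = Sum.inr (Sum.inl y) ∧
    b = Sum.inr (Sum.inl z) ∧ c = Sum.inl (ec hQ y z) := Iff.rfl

lemma inl_inj' {u v : V} (h : (Sum.inl u : Dom V Q hQ) = Sum.inl v) : u = v := Sum.inl.inj h

lemma inry_inj {u v : Y V Q} (h : (Sum.inr (Sum.inl u) : Dom V Q hQ) = Sum.inr (Sum.inl v)) :
    u = v := Sum.inl.inj (Sum.inr.inj h)

/-- separation of colours of positive rank -/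
lemma exists_sep {n : ℕ} {u v : V} (hu : rank u = n + 1) (hv : rank v = n + 1) (huv : u ≠ v) :
    ∃ w : V, rank w = n ∧ R w u ∧ ¬ R w v := by
  classical
  cases n with
  | zero =>
    obtain ⟨x, hx⟩ := Good.zero_ne (V := V)
    obtain ⟨w, h1, _, h2⟩ := Good.ext_E x 0 ({u, v} : Finset V) {u} hx
    refine ⟨w, (Good.E_rank h1).2, (h2 u (by simp) hu).mpr (by simp), ?_⟩
    rw [h2 v (by simp) hv]
    simp [huv.symm]
  | succ n =>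
    obtain ⟨w, _, h1, h2⟩ := Good.ext_R n ({u, v} : Finset V) {u}
    refine ⟨w, h1, ((h2 u (by simp)).2 hu).mpr (by simp), ?_⟩
    rw [(h2 v (by simp)).2 hv]
    simp [huv.symm]

/-- the facts that are used for the upper bound -/
structure Facts (A : Type) [HL.Structure A] : Prop where
  cover : ∀ a : A, (∃ n, AV n a) ∨ AY a ∨ AQ a
  E_refl : ∀ (k : ℕ) (a : A), AV 0 a → AE k a a
  E_symm : ∀ (k : ℕ) (a b : A), AE k a b → AE k b a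
  E_trans : ∀ (k : ℕ) (a b c : A), AE k a b → AE k b c → AE k a c
  E_zero : ∀ a b : A, AV 0 a → AV 0 b → AE 0 a b
  E_sep : ∀ a b : A, (∀ k, AE k a b) → a = b
  E_bin : ∀ (k : ℕ) (a b c : A), AE k a b → AE k b c → ¬ AE (k + 1) a b → ¬ AE (k + 1) b c →
    AE (k + 1) a c
  sep : ∀ (n : ℕ) (a b : A), AV (n + 1) a → AV (n + 1) b → a ≠ b → ∃ c, AV n c ∧ AR c a ∧ ¬ AR c b
  col : ∀ a b : A, AY a → AY b → ∃ n c, AV n c ∧ AC a b c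
  fin : ∀ a b : A, AY a → AY b → a ≠ b → {x | ∃ c, AC x a c ∧ AC x b c}.Finite
  surj : ∀ q : A, AQ q → ∃ y, AY y ∧ AP y q
  func : ∀ y q q' : A, AP y q → AP y q' → q = q'

theorem facts_of_bfc {A : Type} [HL.Structure A] (hbf : BFc HL (Dom V Q hQ) A) : Facts A := by
  obtain ⟨𝒮, hS⟩ := exists_sys hbf
  have hR1 : ∀ {Γ : Set (Dom V Q hQ × A)}, Γ ∈ 𝒮 → PIso HL Γ := fun h => hS.iso _ h
  refine ⟨?_, ?_, ?_, ?_, ?_, ?_, ?_, ?_, ?_, ?_, ?_, ?_⟩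
  · intro a
    obtain ⟨Γ, hΓ, m, hm⟩ := hS.back1 a
    rcases m with u | y | q
    · exact Or.inl ⟨rank u, ((hR1 hΓ).r1 (HRel.v (rank u)) hm).mp ⟨u, rfl, rfl⟩⟩
    · exact Or.inr (Or.inl (((hR1 hΓ).r1 HRel.y hm).mp ⟨y, rfl⟩))
    · exact Or.inr (Or.inr (((hR1 hΓ).r1 HRel.q hm).mp ⟨q, rfl⟩))
  · intro k a ha
    obtain ⟨Γ, hΓ, m, hm⟩ := hS.back1 a
    obtain ⟨u, rfl, hu⟩ := ((hR1 hΓ).r1 (HRel.v 0) hm).mpr ha
    exact ((hR1 hΓ).r2 (HRel.E k) hm hm).mp ⟨u, u, rfl, rfl, Good.E_refl k hu⟩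
  · intro k a b hab
    obtain ⟨Γ, hΓ, m, n, hm, hn⟩ := hS.back2 a b
    obtain ⟨u, v, h1, h2, h3⟩ := ((hR1 hΓ).r2 (HRel.E k) hm hn).mpr hab
    exact ((hR1 hΓ).r2 (HRel.E k) hn hm).mp ⟨v, u, h2, h1, Good.E_symm h3⟩
  · intro k a b c hab hbc
    obtain ⟨Γ, hΓ, m, n, l, hm, hn, hl⟩ := hS.back3 a b c
    obtain ⟨u, v, h1, h2, h3⟩ := ((hR1 hΓ).r2 (HRel.E k) hm hn).mpr hab
    obtain ⟨v', w, h1', h2', h3'⟩ := ((hR1 hΓ).r2 (HRel.E k) hn hl).mpr hbc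
    have e : v = v' := inl_inj' (h2.symm.trans h1')
    subst e
    exact ((hR1 hΓ).r2 (HRel.E k) hm hl).mp ⟨u, w, h1, h2', Good.E_trans h3 h3'⟩
  · intro a b ha hb
    obtain ⟨Γ, hΓ, m, n, hm, hn⟩ := hS.back2 a b
    obtain ⟨u, hu, hu'⟩ := ((hR1 hΓ).r1 (HRel.v 0) hm).mpr ha
    obtain ⟨v, hv, hv'⟩ := ((hR1 hΓ).r1 (HRel.v 0) hn).mpr hb
    exact ((hR1 hΓ).r2 (HRel.E 0) hm hn).mp ⟨u, v, hu, hv, Good.E_zero hu' hv'⟩
  · intro a b hab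
    obtain ⟨Γ, hΓ, m, n, hm, hn⟩ := hS.back2 a b
    have h1 : ∀ k, AE k m n := fun k => ((hR1 hΓ).r2 (HRel.E k) hm hn).mpr (hab k)
    obtain ⟨u, v, hu, hv, _⟩ := h1 0
    have h2 : u = v := by
      apply Good.E_sep
      intro k
      obtain ⟨u', v', hu', hv', h3⟩ := h1 k
      rwa [inl_inj' (hu.symm.trans hu'), inl_inj' (hv.symm.trans hv')]
    refine ((hR1 hΓ).inj _ hm _ hn).mp ?_
    exact hu.trans ((congrArg Sum.inl h2).trans hv.symm)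
  · intro k a b c hab hbc hnab hnbc
    obtain ⟨Γ, hΓ, m, n, l, hm, hn, hl⟩ := hS.back3 a b c
    obtain ⟨u, v, h1, h2, h3⟩ := ((hR1 hΓ).r2 (HRel.E k) hm hn).mpr hab
    obtain ⟨v', w, h1', h2', h3'⟩ := ((hR1 hΓ).r2 (HRel.E k) hn hl).mpr hbc
    have e : v = v' := inl_inj' (h2.symm.trans h1')
    subst e
    refine ((hR1 hΓ).r2 (HRel.E (k + 1)) hm hl).mp ⟨u, w, h1, h2', Good.E_bin h3 h3' ?_ ?_⟩
    · intro h4
      exact hnab (((hR1 hΓ).r2 (HRel.E (k + 1)) hm hn).mp ⟨u, v, h1, h2, h4⟩)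
    · intro h4
      exact hnbc (((hR1 hΓ).r2 (HRel.E (k + 1)) hn hl).mp ⟨v, w, h1', h2', h4⟩)
  · intro n a b ha hb hab
    obtain ⟨Γ, hΓ, m, m', hm, hm'⟩ := hS.back2 a b
    obtain ⟨u, hu, hu'⟩ := ((hR1 hΓ).r1 (HRel.v (n + 1)) hm).mpr ha
    obtain ⟨v, hv, hv'⟩ := ((hR1 hΓ).r1 (HRel.v (n + 1)) hm').mpr hb
    have huv : u ≠ v := by
      rintro rfl
      exact hab (((hR1 hΓ).inj _ hm _ hm').mp (hu.trans hv.symm))
    obtain ⟨w, hw1, hw2, hw3⟩ := exists_sep hu' hv' huv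
    obtain ⟨Γ', hΓ', hle, c, hc⟩ := hS.forth Γ hΓ (Sum.inl w)
    refine ⟨c, ((hR1 hΓ').r1 (HRel.v n) hc).mp ⟨w, rfl, hw1⟩,
      ((hR1 hΓ').r2 HRel.R hc (hle hm)).mp ⟨w, u, rfl, hu, hw2⟩, ?_⟩
    intro h4
    obtain ⟨w', v', e1, e2, h5⟩ := ((hR1 hΓ').r2 HRel.R hc (hle hm')).mpr h4
    rw [← inl_inj' e1, ← inl_inj' (hv.symm.trans e2)] at h5
    exact hw3 h5
  · intro a b ha hb
    obtain ⟨Γ, hΓ, m, n, hm, hn⟩ := hS.back2 a b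
    obtain ⟨y, hy⟩ := ((hR1 hΓ).r1 HRel.y hm).mpr ha
    obtain ⟨z, hz⟩ := ((hR1 hΓ).r1 HRel.y hn).mpr hb
    obtain ⟨Γ', hΓ', hle, c, hc⟩ := hS.forth Γ hΓ (Sum.inl (ec hQ y z))
    exact ⟨rank (ec hQ y z), c, ((hR1 hΓ').r1 (HRel.v _) hc).mp ⟨_, rfl, rfl⟩,
      ((hR1 hΓ').r3 HRel.e (hle hm) (hle hn) hc).mp ⟨y, z, hy, hz, rfl⟩⟩
  · -- finiteness
    intro a b ha hb hab
    obtain ⟨Γ, hΓ, m, n, hm, hn⟩ := hS.back2 a b
    obtain ⟨y, hy⟩ := ((hR1 hΓ).r1 HRel.y hm).mpr ha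
    obtain ⟨z, hz⟩ := ((hR1 hΓ).r1 HRel.y hn).mpr hb
    have hyz : y ≠ z := by
      rintro rfl
      exact hab (((hR1 hΓ).inj _ hm _ hn).mp (hy.trans hz.symm))
    -- the exceptional set in the first structure
    let T : Set (Dom V Q hQ) := (fun x : Y V Q => (Sum.inr (Sum.inl x) : Dom V Q hQ)) ''
      (kids y ∪ kids z ∪ {y, z})
    have hT : T.Finite := (((kids_finite y).union (kids_finite z)).union
      (Set.toFinite {y, z})).image _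
    by_contra hinf
    have hinf' : {x | ∃ c, AC x a c ∧ AC x b c}.Infinite := hinf
    obtain ⟨B, hB1, hB2⟩ := hinf'.exists_subset_card_eq (hT.toFinset.card + 1)
    obtain ⟨Γ1, hΓ1, hle1, hB3⟩ := hS.back_set hΓ B.finite_toSet
    have hex : ∀ x ∈ B, ∃ m, (m, x) ∈ Γ1 ∧ m ∈ T := by
      intro x hx
      obtain ⟨m', hm'⟩ := hB3 x hx
      refine ⟨m', hm', ?_⟩
      obtain ⟨c, hc1, hc2⟩ := hB1 hx
      obtain ⟨Γ2, hΓ2, hle2, d, hd⟩ := hS.back Γ1 hΓ1 c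
      obtain ⟨x1, y1, e1, e2, e3⟩ := ((hR1 hΓ2).r3 HRel.e (hle2 hm') (hle2 (hle1 hm)) hd).mpr hc1
      obtain ⟨x2, z1, e4, e5, e6⟩ := ((hR1 hΓ2).r3 HRel.e (hle2 hm') (hle2 (hle1 hn)) hd).mpr hc2
      have f1 : x1 = x2 := inry_inj (e1.symm.trans e4)
      have f2 : y = y1 := inry_inj (hy.symm.trans e2)
      have f3 : z = z1 := inry_inj (hz.symm.trans e5)
      have f4 : ec hQ x1 y1 = ec hQ x2 z1 := inl_inj' (e3.symm.trans e6)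
      subst f1 f2 f3
      refine ⟨x1, ?_, e1.symm⟩
      by_contra hcon
      simp only [Set.mem_union, Set.mem_insert_iff, Set.mem_singleton_iff, not_or] at hcon
      exact ec_ne hQ hyz hcon.2.1 hcon.2.2 hcon.1.1 hcon.1.2 f4
    have : Nonempty (Dom V Q hQ) := ⟨m⟩
    choose! g hg1 hg2 using hex
    have hinj : Set.InjOn g (B : Set A) := by
      intro x hx x' hx' hxx
      exact ((hR1 hΓ1).inj _ (hg1 x hx) _ (hg1 x' hx')).mp hxx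
    have h1 : B.card ≤ hT.toFinset.card :=
      Finset.card_le_card_of_injOn g (fun x hx => hT.mem_toFinset.mpr (hg2 x hx)) hinj
    omega
  · intro q hq
    obtain ⟨Γ, hΓ, m, hm⟩ := hS.back1 q
    obtain ⟨q0, hq0⟩ := ((hR1 hΓ).r1 HRel.q hm).mpr hq
    obtain ⟨y, _, _, hy, _⟩ := exists_mk hQ ∅ Set.finite_empty
      (fun _ => Classical.choice (inferInstanceAs (Nonempty V)))
      (fun _ => Classical.choice (inferInstanceAs (Nonempty V))) (Set.injOn_empty _)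
      (Classical.choice (inferInstanceAs (Nonempty V))) q0
    obtain ⟨Γ', hΓ', hle, c, hc⟩ := hS.forth Γ hΓ (Sum.inr (Sum.inl y))
    exact ⟨c, ((hR1 hΓ').r1 HRel.y hc).mp ⟨y, rfl⟩,
      ((hR1 hΓ').r2 HRel.pi hc (hle hm)).mp ⟨y, rfl, by rw [hy]; exact hq0⟩⟩
  · intro y q q' h1 h2
    obtain ⟨Γ, hΓ, m, n, l, hm, hn, hl⟩ := hS.back3 y q q'
    obtain ⟨y1, e1, e2⟩ := ((hR1 hΓ).r2 HRel.pi hm hn).mpr h1
    obtain ⟨y2, e3, e4⟩ := ((hR1 hΓ).r2 HRel.pi hm hl).mpr h2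
    have f1 : y1 = y2 := inry_inj (e1.symm.trans e3)
    subst f1
    exact ((hR1 hΓ).inj _ hn _ hl).mp (e2.trans e4.symm)

end

end Pool.Agent.H94.HC
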